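import Pool.Agent.H55.MZ.Stm

/-!
Project MZ, part ALG: two rational functions on a curve are algebraically dependent (counting forms).
-/

set_option autoImplicit false

open MvPolynomial Filter Topology Height

namespace Pool.Agent.H55.MZ.ALG

variable {K : Type} [Field K] {n : ℕ}

attribute [local instance] MvPolynomial.gradedAlgebra

/-- The homogeneous components of a product with a form. -/
lemma hc_mul (a m : Poly K n) {N : ℕ} (hm : m.IsHomogeneous N) (s : ℕ) :
    homogeneousComponent (s + N) (a * m) = homogeneousComponent s a * m := by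
  have h := DirectSum.coe_decompose_mul_add_of_right_mem (homogeneousSubmodule (Fin (n + 1)) K)
    (i := s) (j := N) (a := a) (b := m) hm
  have e : ∀ (φ : Poly K n) (i : ℕ),
      ((DirectSum.decompose (homogeneousSubmodule (Fin (n + 1)) K) φ i :
        homogeneousSubmodule (Fin (n + 1)) K i) : Poly K n) = homogeneousComponent i φ :=
    fun φ i => decomposition.decompose'_apply φ i
  rw [e, e] at h
  exact h

/-- The two linear forms of the curve. -/
lemma span_two (J : Ideal (Poly K n)) (m : Fin 2 → Poly K n) {g : Poly K n}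
    (hg : g ∈ J ⊔ Ideal.span (Set.range m)) : ∃ a0 a1, g - (a0 * m 0 + a1 * m 1) ∈ J := by
  obtain ⟨y, hy, z, hz, rfl⟩ := Submodule.mem_sup.1 hg
  have : Set.range m = {m 0, m 1} := by
    ext w
    simp [Fin.exists_fin_two, eq_comm]
  rw [this, Ideal.mem_span_pair] at hz
  obtain ⟨a, b, rfl⟩ := hz
  refine ⟨a, b, ?_⟩
  simpa using hy

/-- One step: a form of large degree is a combination of `m 0, m 1` modulo `J`. -/
lemma step (J : Ideal (Poly K n)) (hJ : Homog J) (m : Fin 2 → Poly K n) (hm : ∀ i, (m i).IsHomogeneous 1)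
    (e : Fin (n + 1) → ℕ) (he : ∀ l, (X l : Poly K n) ^ e l ∈ J ⊔ Ideal.span (Set.range m))
    (s : ℕ) (hs : ∑ l, e l ≤ s) (g : Poly K n) (hg : g.IsHomogeneous (s + 1)) :
    ∃ a0 a1 : Poly K n, a0.IsHomogeneous s ∧ a1.IsHomogeneous s ∧ g - (a0 * m 0 + a1 * m 1) ∈ J := by
  have h1 : g ∈ J ⊔ Ideal.span (Set.range m) := by
    rw [g.as_sum]
    refine Ideal.sum_mem _ fun d hd => ?_
    have hdeg : d.degree = s + 1 := by
      by_contra hne
      exact (mem_support_iff.1 hd) (hg.coeff_eq_zero hne)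
    obtain ⟨l, hl⟩ : ∃ l, e l ≤ d l := by
      by_contra hcon
      push Not at hcon
      have : d.degree ≤ ∑ l, e l := by
        rw [Finsupp.degree_eq_sum]
        exact Finset.sum_le_sum fun l _ => (hcon l).le
      omega
    have h2 : monomial d (coeff d g) = monomial (d - Finsupp.single l (e l)) (coeff d g) * X l ^ e l := by
      rw [X_pow_eq_monomial, monomial_mul, mul_one]
      congr 1
      rw [tsub_add_cancel_of_le]
      rwa [Finsupp.single_le_iff]
    rw [h2]
    exact Ideal.mul_mem_left _ _ (he l)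
  obtain ⟨a0, a1, h2⟩ := span_two J m h1
  refine ⟨homogeneousComponent s a0, homogeneousComponent s a1, homogeneousComponent_isHomogeneous _ _,
    homogeneousComponent_isHomogeneous _ _, ?_⟩
  have h3 := hJ _ h2 (s + 1)
  rwa [map_sub, map_add, hc_mul _ _ (hm 0), hc_mul _ _ (hm 1), homogeneousComponent_eq_self hg] at h3

/-- All forms of degree `D + t` modulo `J`. -/
lemma forms (J : Ideal (Poly K n)) (hJ : Homog J) (m : Fin 2 → Poly K n) (hm : ∀ i, (m i).IsHomogeneous 1)
    (e : Fin (n + 1) → ℕ) (he : ∀ l, (X l : Poly K n) ^ e l ∈ J ⊔ Ideal.span (Set.range m))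
    (t : ℕ) (g : Poly K n) (hg : g.IsHomogeneous (∑ l, e l + t)) :
    ∃ b : ℕ → Poly K n, (∀ i, (b i).IsHomogeneous (∑ l, e l)) ∧
      g - ∑ i ∈ Finset.range (t + 1), m 0 ^ i * m 1 ^ (t - i) * b i ∈ J := by
  induction t generalizing g with
  | zero =>
    refine ⟨fun _ => g, fun _ => by simpa using hg, ?_⟩
    simp
  | succ t ih =>
    obtain ⟨a0, a1, h0, h1, h2⟩ := step J hJ m hm e he (∑ l, e l + t) (by omega) g (by
      rwa [add_assoc])
    obtain ⟨b0, hb0, hb0'⟩ := ih a0 h0
    obtain ⟨b1, hb1, hb1'⟩ := ih a1 h1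
    refine ⟨fun i => (if i = 0 then 0 else b0 (i - 1)) + (if i ≤ t then b1 i else 0), ?_, ?_⟩
    · intro i
      refine IsHomogeneous.add ?_ ?_
      · split_ifs
        · exact isHomogeneous_zero _ _ _
        · exact hb0 _
      · split_ifs
        · exact hb1 _
        · exact isHomogeneous_zero _ _ _
    · have e1 : ∑ i ∈ Finset.range (t + 1 + 1), m 0 ^ i * m 1 ^ (t + 1 - i)
          * ((if i = 0 then 0 else b0 (i - 1)) + (if i ≤ t then b1 i else 0))
          = (∑ i ∈ Finset.range (t + 1), m 0 ^ i * m 1 ^ (t - i) * b0 i) * m 0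
            + (∑ i ∈ Finset.range (t + 1), m 0 ^ i * m 1 ^ (t - i) * b1 i) * m 1 := by
        simp only [mul_add]
        rw [Finset.sum_add_distrib]
        congr 1
        · rw [Finset.sum_range_succ', Finset.sum_mul]
          simp only [if_true, mul_zero, add_zero]
          refine Finset.sum_congr rfl fun i _ => ?_
          rw [if_neg (Nat.succ_ne_zero i), Nat.add_sub_cancel, Nat.add_sub_add_right]
          ring
        · rw [Finset.sum_range_succ, if_neg (by omega), mul_zero, add_zero, Finset.sum_mul]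
          refine Finset.sum_congr rfl fun i hi => ?_
          have hi' : i ≤ t := by
            have := Finset.mem_range.1 hi
            omega
          rw [if_pos hi', show t + 1 - i = (t - i) + 1 by omega]
          ring
      rw [e1]
      have e2 : g - ((∑ i ∈ Finset.range (t + 1), m 0 ^ i * m 1 ^ (t - i) * b0 i) * m 0
            + (∑ i ∈ Finset.range (t + 1), m 0 ^ i * m 1 ^ (t - i) * b1 i) * m 1)
          = (g - (a0 * m 0 + a1 * m 1))
            + (a0 - ∑ i ∈ Finset.range (t + 1), m 0 ^ i * m 1 ^ (t - i) * b0 i) * m 0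
            + (a1 - ∑ i ∈ Finset.range (t + 1), m 0 ^ i * m 1 ^ (t - i) * b1 i) * m 1 := by ring
      rw [e2]
      exact J.add_mem (J.add_mem h2 (J.mul_mem_right _ hb0')) (J.mul_mem_right _ hb1')

theorem t : S_ALG := by
  intro K _ n J hJ m hm hJm δ Ψ hΨ
  choose e he using hJm
  set D : ℕ := ∑ l, e l with hD
  have : Module.Finite K (homogeneousSubmodule (Fin (n + 1)) K D) :=
    Module.Finite.iff_fg.2 (homogeneousSubmodule_fg _ _ D)
  set P := homogeneousSubmodule (Fin (n + 1)) K D with hP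
  set p : ℕ := Module.finrank K P with hp
  -- the parameters
  set M : ℕ := D + (1 + δ) * p + p + 1 with hM
  obtain ⟨t, ht⟩ : ∃ t, M + δ * M = D + t := ⟨M + δ * M - D, by omega⟩
  -- the map from the products
  set π : Poly K n →ₗ[K] Poly K n ⧸ J := (Ideal.Quotient.mkₐ K J).toLinearMap with hπ
  let T : (Fin (t + 1) → P) →ₗ[K] Poly K n ⧸ J :=
    ∑ i : Fin (t + 1), π ∘ₗ (LinearMap.mulLeft K (m 0 ^ (i : ℕ) * m 1 ^ (t - i))) ∘ₗ P.subtype
      ∘ₗ LinearMap.proj i
  have hT : ∀ b, T b = π (∑ i : Fin (t + 1), m 0 ^ (i : ℕ) * m 1 ^ (t - i) * (b i : Poly K n)) := by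
    intro b
    simp [T, map_sum, mul_assoc]
  have hTr : ∀ g : Poly K n, g.IsHomogeneous (D + t) → π g ∈ LinearMap.range T := by
    intro g hg
    obtain ⟨b, hb, hb'⟩ := forms J hJ m hm e he t g hg
    refine ⟨fun i => ⟨b i, hb i⟩, ?_⟩
    rw [hT, ← sub_eq_zero, ← map_sub]
    rw [← Fin.sum_univ_eq_sum_range (fun i => m 0 ^ i * m 1 ^ (t - i) * b i)] at hb'
    have : (∑ i : Fin (t + 1), m 0 ^ (i : ℕ) * m 1 ^ (t - i) * b i) - g ∈ J := by
      rw [← neg_sub]
      exact J.neg_mem hb'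
    exact Ideal.Quotient.eq_zero_iff_mem.2 this
  let L : (Fin (M + 1) × Fin (M + 1) → K) →ₗ[K] Poly K n ⧸ J :=
    ∑ a : Fin (M + 1) × Fin (M + 1),
      (LinearMap.toSpanSingleton K _ (π (m 0 ^ (M - a.1) * m 1 ^ (a.1 : ℕ) * (Ψ 0 ^ (M - a.2)
        * Ψ 1 ^ (a.2 : ℕ))))) ∘ₗ LinearMap.proj a
  have hL : ∀ c, L c = π (∑ a : Fin (M + 1) × Fin (M + 1), c a • (m 0 ^ (M - a.1) * m 1 ^ (a.1 : ℕ)
      * (Ψ 0 ^ (M - a.2) * Ψ 1 ^ (a.2 : ℕ)))) := by
    intro c
    simp [L, map_sum, mul_assoc]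
  have hLr : LinearMap.range L ≤ LinearMap.range T := by
    rintro _ ⟨c, rfl⟩
    rw [hL]
    apply hTr
    refine IsHomogeneous.sum _ _ _ fun a _ => ?_
    rw [smul_eq_C_mul]
    apply IsHomogeneous.C_mul
    have h1 : (m 0 ^ (M - (a.1 : ℕ))).IsHomogeneous (1 * (M - (a.1 : ℕ))) := (hm 0).pow _
    have h2 : (m 1 ^ (a.1 : ℕ)).IsHomogeneous (1 * (a.1 : ℕ)) := (hm 1).pow _
    have h3 : (Ψ 0 ^ (M - (a.2 : ℕ))).IsHomogeneous (δ * (M - (a.2 : ℕ))) := (hΨ 0).pow _
    have h4 : (Ψ 1 ^ (a.2 : ℕ)).IsHomogeneous (δ * (a.2 : ℕ)) := (hΨ 1).pow _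
    have h5 := (h1.mul h2).mul (h3.mul h4)
    have h6 : 1 * (M - (a.1 : ℕ)) + 1 * (a.1 : ℕ) + (δ * (M - (a.2 : ℕ)) + δ * (a.2 : ℕ)) = D + t := by
      rw [← ht, ← mul_add, ← mul_add, Nat.sub_add_cancel (Nat.lt_succ_iff.1 a.2.2),
        Nat.sub_add_cancel (Nat.lt_succ_iff.1 a.1.2), one_mul]
    rwa [h6] at h5
  have hdim : ¬ Function.Injective L := by
    intro hinj
    have h1 : Module.finrank K (LinearMap.range L) = (M + 1) * (M + 1) := by
      rw [LinearMap.finrank_range_of_inj hinj]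
      simp
    have h2 : Module.finrank K (LinearMap.range L) ≤ Module.finrank K (LinearMap.range T) :=
      Submodule.finrank_mono hLr
    have h3 : Module.finrank K (LinearMap.range T) ≤ (t + 1) * p := by
      refine (LinearMap.finrank_range_le T).trans (le_of_eq ?_)
      rw [Module.finrank_pi_fintype]
      simp [hp]
    have h4 : (t + 1) * p ≤ (M + δ * M + 1) * p := Nat.mul_le_mul_right _ (by omega)
    have h5 : (M + δ * M + 1) * p < (M + 1) * (M + 1) := by
      have h6 : (1 + δ) * p + p < M + 1 := by omega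
      nlinarith
    omega
  obtain ⟨c, hc0, hcL⟩ : ∃ c, c ≠ 0 ∧ L c = 0 := by
    by_contra hcon
    push Not at hcon
    apply hdim
    rw [injective_iff_map_eq_zero]
    intro c hc
    by_contra h0
    exact hcon c h0 hc
  rw [hL] at hcL
  have hcJ : (∑ a : Fin (M + 1) × Fin (M + 1), c a • (m 0 ^ (M - a.1) * m 1 ^ (a.1 : ℕ)
      * (Ψ 0 ^ (M - a.2) * Ψ 1 ^ (a.2 : ℕ)))) ∈ J := Ideal.Quotient.eq_zero_iff_mem.1 hcL
  -- the polynomial
  set F : Polynomial (Polynomial K) := ∑ j : Fin (M + 1), Polynomial.monomial (j : ℕ)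
    (∑ i : Fin (M + 1), Polynomial.monomial (i : ℕ) (c (i, j))) with hF
  refine ⟨F, ?_, ?_⟩
  · intro h0
    apply hc0
    funext a
    have h1 : (F.coeff (a.2 : ℕ)).coeff (a.1 : ℕ) = c a := by
      rw [hF]
      simp only [Polynomial.finsetSum_coeff, Polynomial.coeff_monomial]
      rw [Finset.sum_eq_single a.2]
      · rw [if_pos rfl]
        simp only [Polynomial.finsetSum_coeff, Polynomial.coeff_monomial]
        rw [Finset.sum_eq_single a.1]
        · rw [if_pos rfl]
        · intro b _ hb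
          exact if_neg fun h => hb (Fin.ext h)
        · simp
      · intro b _ hb
        rw [if_neg fun h => hb (Fin.ext h)]
        exact Polynomial.coeff_zero _
      · simp
    rw [h0] at h1
    simpa using h1.symm
  · intro x hx hm0 hΨ0
    have h1 := hx _ hcJ
    rw [map_sum] at h1
    simp only [smul_eval, map_mul, map_pow] at h1
    have h2 : F.evalEval (eval x (m 1) / eval x (m 0)) (eval x (Ψ 1) / eval x (Ψ 0))
        = ∑ a : Fin (M + 1) × Fin (M + 1), c a * ((eval x (m 1) / eval x (m 0)) ^ (a.1 : ℕ)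
          * (eval x (Ψ 1) / eval x (Ψ 0)) ^ (a.2 : ℕ)) := by
      rw [hF, Fintype.sum_prod_type_right]
      simp only [Polynomial.evalEval, Polynomial.eval_finsetSum, Polynomial.eval_monomial,
        Polynomial.eval_mul, Polynomial.eval_pow, Polynomial.eval_C]
      refine Finset.sum_congr rfl fun j _ => ?_
      rw [Finset.sum_mul]
      refine Finset.sum_congr rfl fun i _ => ?_
      ring
    have h3 : eval x (m 0) ^ M * eval x (Ψ 0) ^ M
        * F.evalEval (eval x (m 1) / eval x (m 0)) (eval x (Ψ 1) / eval x (Ψ 0)) = 0 := by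
      rw [h2, Finset.mul_sum, ← h1]
      refine Finset.sum_congr rfl fun a _ => ?_
      have e1 : eval x (m 0) ^ M = eval x (m 0) ^ (M - (a.1 : ℕ)) * eval x (m 0) ^ (a.1 : ℕ) := by
        rw [← pow_add, Nat.sub_add_cancel (Nat.lt_succ_iff.1 a.1.2)]
      have e2 : eval x (Ψ 0) ^ M = eval x (Ψ 0) ^ (M - (a.2 : ℕ)) * eval x (Ψ 0) ^ (a.2 : ℕ) := by
        rw [← pow_add, Nat.sub_add_cancel (Nat.lt_succ_iff.1 a.2.2)]
      rw [e1, e2, div_pow, div_pow]
      field_simp
    have h4 : eval x (m 0) ^ M * eval x (Ψ 0) ^ M ≠ 0 := mul_ne_zero (pow_ne_zero _ hm0) (pow_ne_zero _ hΨ0)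
    exact (mul_eq_zero.1 h3).resolve_left h4

end Pool.Agent.H55.MZ.ALG
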