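import Pool.Agent.H55.MZ.Orb

/-!
# Project MZ: the orbits of points of large height are Zariski dense, also along arithmetic progressions
-/

set_option autoImplicit false

open MvPolynomial Filter Topology Height

namespace Pool.Agent.H55.MZ

section Comp

variable {K : Type} [Field K] {n : ℕ} {I : Ideal (Poly K n)} {d : ℕ}
  {Φ : Fin (n + 1) → Fin (n + 1) → Poly K n}

attribute [local instance] MvPolynomial.gradedAlgebra in
lemma homog_iff (J : Ideal (Poly K n)) :
    Homog J ↔ J.IsHomogeneous (homogeneousSubmodule (Fin (n + 1)) K) := by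
  constructor
  · intro h s g hg
    have := h g hg s
    rwa [← decomposition.decompose'_apply] at this
  · intro h g hg s
    exact homogeneousComponent_mem_of_mem h hg s

attribute [local instance] MvPolynomial.gradedAlgebra in
lemma homog_sup (I : Ideal (Poly K n)) (hI : Homog I) {g : Poly K n} {s : ℕ} (hg : g.IsHomogeneous s) :
    Homog (I ⊔ Ideal.span {g}) := by
  rw [homog_iff] at *
  refine hI.sup (Ideal.homogeneous_span _ _ ?_)
  intro x hx
  rw [Set.mem_singleton_iff] at hx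
  subst hx
  exact ⟨s, (mem_homogeneousSubmodule s x).2 hg⟩

/-- the iterates of the map given by the columns `J 0, J 1, …` -/
noncomputable def comp (Φ : Fin (n + 1) → Fin (n + 1) → Poly K n) (J : ℕ → Fin (n + 1)) :
    ℕ → Fin (n + 1) → Poly K n
  | 0 => X
  | k + 1 => fun i => bind₁ (comp Φ J k) (Φ i (J k))

lemma comp_hom (hΦ : IsAuto I d Φ) (J : ℕ → Fin (n + 1)) (k : ℕ) (i : Fin (n + 1)) :
    (comp Φ J k i).IsHomogeneous (d ^ k) := by
  induction k generalizing i with
  | zero => simpa [comp] using isHomogeneous_X K i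
  | succ k ih => exact (hΦ.hom i (J k)).aeval _ ih

lemma comp_eval (hΦ : IsAuto I d Φ) {P z : ℕ → Fin (n + 1) → K} (h : Orbit I Φ P z) (J : ℕ → Fin (n + 1))
    (a k : ℕ) (hJ : ∀ i < k, z (a + i) (J i) ≠ 0) :
    ∃ c : K, c ≠ 0 ∧ (fun i => eval (P a) (comp Φ J k i)) = c • P (a + k) := by
  induction k with
  | zero => exact ⟨1, one_ne_zero, by funext i; simp [comp]⟩
  | succ k ih =>
    obtain ⟨c, hc, hk⟩ := ih (fun i hi => hJ i (by omega))
    refine ⟨c ^ d * z (a + k) (J k), mul_ne_zero (pow_ne_zero _ hc) (hJ k (by omega)), ?_⟩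
    funext i
    have : eval (P a) (comp Φ J (k + 1) i) = eval (fun i => eval (P a) (comp Φ J k i)) (Φ i (J k)) :=
      eval_bind _ _ _
    rw [this, hk, eval_smul_hom (hΦ.hom i (J k)), h.st (a + k) i (J k)]
    simp only [Pi.smul_apply, smul_eq_mul, ← add_assoc]
    ring

end Comp

section Lim

/-- ratios of sequences at bounded distance -/
lemma ratio_bdd {a h : ℕ → ℝ} {C r : ℝ} (hC : ∀ᶠ k in atTop, |a k - h k| ≤ C) (hh : Tendsto h atTop atTop)
    (hr : Tendsto (fun k => h (k + 1) / h k) atTop (𝓝 r)) :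
    Tendsto a atTop atTop ∧ Tendsto (fun k => a (k + 1) / a k) atTop (𝓝 r) := by
  have h1 : Tendsto a atTop atTop := by
    refine tendsto_atTop_mono' _ (f₁ := fun k => h k - C) ?_ (tendsto_atTop_add_const_right _ _ hh)
    filter_upwards [hC] with k hk
    have := (abs_le.1 hk).1
    linarith
  refine ⟨h1, ?_⟩
  have h2 : Tendsto (fun k => (a k - h k) / h k) atTop (𝓝 0) := by
    rw [tendsto_zero_iff_abs_tendsto_zero]
    refine squeeze_zero' (Eventually.of_forall fun k => abs_nonneg _) ?_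
      (Tendsto.div_atTop (tendsto_const_nhds (x := C)) hh)
    filter_upwards [hC, hh.eventually_gt_atTop 0] with k hk hpos
    simp only [Function.comp]
    rw [abs_div, abs_of_pos hpos]
    gcongr
  have h3 : Tendsto (fun k => a k / h k) atTop (𝓝 1) := by
    have h5 := h2.add_const 1
    rw [zero_add] at h5
    refine h5.congr' ?_
    filter_upwards [hh.eventually_gt_atTop 0] with k hpos
    field_simp
    ring
  have h4 : Tendsto (fun k => a (k + 1) / h (k + 1)) atTop (𝓝 1) := h3.comp (tendsto_add_atTop_nat 1)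
  have h5 : Tendsto (fun k => (a (k + 1) / h (k + 1)) * (h (k + 1) / h k) / (a k / h k)) atTop (𝓝 (1 * r / 1)) :=
    (h4.mul hr).div h3 one_ne_zero
  rw [one_mul, div_one] at h5
  refine h5.congr' ?_
  have e1 := hh.eventually_gt_atTop 0
  have e2 := (hh.comp (tendsto_add_atTop_nat 1)).eventually_gt_atTop 0
  have e3 := h1.eventually_gt_atTop 0
  filter_upwards [e1, e2, e3] with k p1 p2 p3
  simp only [Function.comp] at p2
  field_simp

lemma ratio_pow {h : ℕ → ℝ} {r : ℝ} (hh : Tendsto h atTop atTop)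
    (hr : Tendsto (fun k => h (k + 1) / h k) atTop (𝓝 r)) (N : ℕ) :
    Tendsto (fun k => h (k + N) / h k) atTop (𝓝 (r ^ N)) := by
  induction N with
  | zero =>
    simp only [add_zero, pow_zero]
    refine tendsto_const_nhds.congr' ?_
    filter_upwards [hh.eventually_gt_atTop 0] with k hk
    rw [div_self hk.ne']
  | succ N ih =>
    have h1 : Tendsto (fun k => h (k + N + 1) / h (k + N)) atTop (𝓝 r) := hr.comp (tendsto_add_atTop_nat N)
    have h2 := ih.mul h1
    rw [← pow_succ] at h2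
    refine h2.congr' ?_
    have e := (hh.comp (tendsto_add_atTop_nat N)).eventually_gt_atTop 0
    filter_upwards [e] with k hk
    simp only [Function.comp] at hk
    rw [add_assoc]
    field_simp

end Lim

section Dens

variable {K : Type} [Field K] [NumberField K] {n : ℕ} {I : Ideal (Poly K n)} {d : ℕ}
  {Φ : Fin (n + 1) → Fin (n + 1) → Poly K n}

/-- the height of a point on a curve is the one of its projection to the line -/
lemma proj (hN : S_NULL) {J : Ideal (Poly K n)} (hJ : Homog J) {m : Fin 2 → Poly K n}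
    (hm : ∀ i, (m i).IsHomogeneous 1) (h0 : NoZero J m) :
    ∃ C : ℝ, ∀ x : Fin (n + 1) → K, (∀ g ∈ J, eval x g = 0) →
      |logHeight ![eval x (m 0), eval x (m 1)] - logHeight x| ≤ C := by
  obtain ⟨M, q, hq, hrel⟩ := hN K n J hJ (Fin 2) 1 m hm h0
  obtain ⟨C1, hC1⟩ := logHeight_eval_le' (K := K) (p := m) (N := 1) hm
  obtain ⟨C2, hC2⟩ := logHeight_eval_ge' (K := K) (N := 1) hq
  refine ⟨max C1 (-C2), fun x hx => ?_⟩
  have h2 := hC1 x
  have h3 := hC2 m (x := x) (fun k => by
    have := hx _ (hrel k)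
    simp only [map_sub, map_sum, map_mul, map_pow, eval_X] at this
    linear_combination -this)
  have h1 : (fun j : Fin 2 => eval x (m j)) = ![eval x (m 0), eval x (m 1)] := by
    funext j; fin_cases j <;> rfl
  rw [h1] at h2 h3
  simp only [Nat.cast_one, one_mul] at h2 h3
  rw [abs_le]
  constructor
  · have := le_max_right C1 (-C2)
    linarith
  · have := le_max_left C1 (-C2)
    linarith

lemma dens_hom (hN : S_NULL) (hG : S_GROW) (hIRR : S_IRR) (hR : S_RATIO) (hNO : S_NORM) (hA : S_ALG)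
    (hΦ : IsAuto I d Φ) (hI : Homog I) (hp : I.IsPrime) (hd : 3 ≤ d)
    (ℓ : Fin 3 → Poly K n) (hℓ : ∀ i, (ℓ i).IsHomogeneous 1) (hℓ0 : NoZero I ℓ)
    {P z : ℕ → Fin (n + 1) → K} (h : Orbit I Φ P z)
    (hu : ¬ BddAbove (Set.range fun k => logHeight (P k))) {N : ℕ} (hN1 : 1 ≤ N)
    {g : Poly K n} {s : ℕ} (hgs : g.IsHomogeneous s) (hg : ∀ m, eval (P (N * m)) g = 0) : g ∈ I := by
  classical
  by_contra hgI
  obtain ⟨m, hm1, hm0⟩ := hNO K n I hp hI ℓ hℓ hℓ0 g s hgs hgI
  set J : Ideal (Poly K n) := I ⊔ Ideal.span {g} with hJ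
  have hJh : Homog J := homog_sup I hI hgs
  obtain ⟨C, hC⟩ := ht hN hΦ hI
  have hd' : (3 : ℝ) ≤ d := by exact_mod_cast hd
  obtain ⟨g1, g2⟩ := hG (d : ℝ) C hd' (fun k => logHeight (P k)) (fun k => logHeight_nonneg _)
    (fun k => h.rel hΦ hC k) hu
  set r : ℝ := ((d : ℝ) + Real.sqrt ((d : ℝ) ^ 2 - 4)) / 2 with hr
  have hmul : Tendsto (fun m : ℕ => N * m) atTop atTop := tendsto_id.const_mul_atTop' hN1
  -- the points
  set Q : ℕ → Fin (n + 1) → K := fun m => P (N * m) with hQ
  have hQJ : ∀ k, ∀ f ∈ J, eval (Q k) f = 0 := by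
    intro k
    have : J ≤ RingHom.ker (eval (Q k)) := by
      refine sup_le (fun f hf => (h.pt (N * k)).2 f hf) ?_
      rw [Ideal.span_le]
      rintro _ rfl
      exact hg k
    exact fun f hf => this hf
  obtain ⟨C', hC'⟩ := proj hN hJh hm1 hm0
  have hQt : Tendsto (fun k => logHeight (Q k)) atTop atTop := g2.comp hmul
  have hQr : Tendsto (fun k => logHeight (Q (k + 1)) / logHeight (Q k)) atTop (𝓝 (r ^ N)) := by
    have := (ratio_pow g2 g1 N).comp hmul
    refine this.congr fun k => ?_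
    simp only [Function.comp, hQ]
    rw [show N * (k + 1) = N * k + N by ring]
  -- the first coordinate does not vanish
  have hm0ne : ∀ᶠ k in atTop, eval (Q k) (m 0) ≠ 0 := by
    filter_upwards [hQt.eventually_gt_atTop C'] with k hk h0
    have h1 := hC' (Q k) (hQJ k)
    rw [h0, logHeight_cons_zero, logHeight_eq_zero_of_subsingleton, zero_sub, abs_neg] at h1
    exact absurd (le_abs_self (logHeight (Q k))) (by linarith)
  set u : ℕ → K := fun k => eval (Q k) (m 1) / eval (Q k) (m 0) with hu'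
  have hub : ∀ᶠ k in atTop, |logHeight₁ (u k) - logHeight (Q k)| ≤ C' := by
    filter_upwards [hm0ne] with k hk
    rw [hu']
    simp only
    rw [logHeight₁_div_eq_logHeight, logHeight_swap]
    exact hC' (Q k) (hQJ k)
  obtain ⟨ut, ur⟩ := ratio_bdd (a := fun k => logHeight₁ (u k)) hub hQt hQr
  -- the columns
  have hcol : ∀ k : ℕ, ∃ j : Fin N → Fin (n + 1), ∀ i : Fin N, z (N * k + i) (j i) ≠ 0 := by
    intro k
    have : ∀ i : Fin N, ∃ j, z (N * k + i) j ≠ 0 := by
      intro i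
      by_contra hcon
      push Not at hcon
      exact h.zne (N * k + i) (funext hcon)
    choose j hj using this
    exact ⟨j, hj⟩
  choose jj hjj using hcol
  obtain ⟨j0, hj0⟩ := Finite.exists_infinite_fiber jj
  have hfr : ∃ᶠ k in atTop, jj k = j0 := by
    rw [Nat.frequently_atTop_iff_infinite]
    exact Set.infinite_coe_iff.1 hj0
  have hm0ne' : ∀ᶠ k in atTop, eval (Q (k + 1)) (m 0) ≠ 0 := (tendsto_add_atTop_nat 1).eventually hm0ne
  obtain ⟨φ, hφ, hφp⟩ := Filter.extraction_of_frequently_atTop (hfr.and_eventually (hm0ne.and hm0ne'))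
  set jx : ℕ → Fin (n + 1) := fun i => if hi : i < N then j0 ⟨i, hi⟩ else 0 with hjx
  set Ψ : Fin 2 → Poly K n := fun i => bind₁ (comp Φ jx N) (m i) with hΨ
  have hΨh : ∀ i, (Ψ i).IsHomogeneous (d ^ N * 1) := fun i => (hm1 i).aeval _ (comp_hom hΦ jx N)
  obtain ⟨F, hF0, hF⟩ := hA K n J hJh m hm1 hm0 _ Ψ hΨh
  have key : ∀ k, F.evalEval (u (φ k)) (u (φ k + 1)) = 0 := by
    intro k
    obtain ⟨p1, p2, p3⟩ := hφp k
    obtain ⟨c, hc, hce⟩ := comp_eval hΦ h jx (N * φ k) N (fun i hi => by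
      have := hjj (φ k) ⟨i, hi⟩
      rw [p1] at this
      simpa [hjx, hi] using this)
    have hce' : ∀ i, eval (Q (φ k)) (Ψ i) = c * eval (Q (φ k + 1)) (m i) := by
      intro i
      have e1 : eval (Q (φ k)) (Ψ i) = eval (fun i => eval (Q (φ k)) (comp Φ jx N i)) (m i) := eval_bind _ _ _
      rw [e1]
      have e2 : (fun i => eval (Q (φ k)) (comp Φ jx N i)) = c • Q (φ k + 1) := by
        rw [hQ]
        simp only
        rw [show N * (φ k + 1) = N * φ k + N by ring]
        exact hce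
      rw [e2, eval_smul_hom (hm1 i), pow_one]
    have := hF (Q (φ k)) (hQJ (φ k)) p2 (by rw [hce']; exact mul_ne_zero hc p3)
    rw [hce' 1, hce' 0, mul_div_mul_left _ _ hc] at this
    exact this
  have hφt := hφ.tendsto_atTop
  obtain ⟨q, hq⟩ := hR K F hF0 (fun k => u (φ k)) (fun k => u (φ k + 1)) key (ut.comp hφt) (r ^ N) (ur.comp hφt)
  exact hIRR d N hd hN1 q hq

lemma dens (hN : S_NULL) (hG : S_GROW) (hIRR : S_IRR) (hR : S_RATIO) (hNO : S_NORM) (hA : S_ALG)
    (hΦ : IsAuto I d Φ) (hI : Homog I) (hp : I.IsPrime) (hd : 3 ≤ d)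
    (ℓ : Fin 3 → Poly K n) (hℓ : ∀ i, (ℓ i).IsHomogeneous 1) (hℓ0 : NoZero I ℓ)
    {P z : ℕ → Fin (n + 1) → K} (h : Orbit I Φ P z)
    (hu : ¬ BddAbove (Set.range fun k => logHeight (P k))) {N : ℕ} (hN1 : 1 ≤ N)
    {g : Poly K n} (hg : ∀ m, ∀ c : K, c ≠ 0 → eval (c • P (N * m)) g = 0) : g ∈ I := by
  rw [← sum_homogeneousComponent g]
  refine Ideal.sum_mem _ fun s _ => ?_
  exact dens_hom hN hG hIRR hR hNO hA hΦ hI hp hd ℓ hℓ hℓ0 h hu hN1
    (homogeneousComponent_isHomogeneous s g) (fun m => comp_zero (hg m) s)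

end Dens

end Pool.Agent.H55.MZ
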