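import Pool.Agent.H55.MZ.Stm

set_option autoImplicit false

open MvPolynomial

namespace Pool.Agent.H55.MZ.NORM

variable {K : Type} [Field K] {n : ℕ}

lemma hc_mul (b ℓ : Poly K n) {t : ℕ} (hℓ : ℓ.IsHomogeneous t) (s : ℕ) :
    homogeneousComponent (s + t) (b * ℓ) = homogeneousComponent s b * ℓ := by
  induction b using MvPolynomial.induction_on' with
  | monomial d c =>
    have h1 : (monomial d c * ℓ : Poly K n).IsHomogeneous (d.degree + t) :=
      (isHomogeneous_monomial c rfl).mul hℓ
    rw [homogeneousComponent_of_mem h1, homogeneousComponent_of_mem (isHomogeneous_monomial c rfl)]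
    by_cases h : s = d.degree <;> simp [h]
  | add p q hp hq => simp [add_mul, hp, hq]

lemma hc_mul_lt (b ℓ : Poly K n) {t : ℕ} (hℓ : ℓ.IsHomogeneous t) (s : ℕ) (hs : s < t) :
    homogeneousComponent s (b * ℓ) = 0 := by
  induction b using MvPolynomial.induction_on' with
  | monomial d c =>
    have h1 : (monomial d c * ℓ : Poly K n).IsHomogeneous (d.degree + t) :=
      (isHomogeneous_monomial c rfl).mul hℓ
    rw [homogeneousComponent_of_mem h1]
    have : s ≠ d.degree + t := by omega
    simp [this]
  | add p q hp hq => simp [add_mul, hp, hq]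

lemma homog_sup (I : Ideal (Poly K n)) (hI : Homog I) (g : Poly K n) {t : ℕ} (hg : g.IsHomogeneous t) :
    Homog (I ⊔ Ideal.span {g}) := by
  intro p hp s
  obtain ⟨y, hy, z, hz, rfl⟩ := Submodule.mem_sup.mp hp
  obtain ⟨a, rfl⟩ := Ideal.mem_span_singleton'.mp hz
  rw [map_add]
  refine Ideal.add_mem _ (Ideal.mem_sup_left (hI y hy s)) ?_
  rcases lt_or_ge s t with h | h
  · rw [hc_mul_lt a g hg s h]; exact Ideal.zero_mem _
  · obtain ⟨k, rfl⟩ := Nat.exists_eq_add_of_le' h
    rw [hc_mul a g hg k]
    exact Ideal.mem_sup_right (Ideal.mul_mem_left _ _ (Ideal.mem_span_singleton_self g))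

lemma hc_aeval {k : ℕ} (ℓ : Fin k → Poly K n) (hℓ : ∀ i, (ℓ i).IsHomogeneous 1)
    (c : MvPolynomial (Fin k) K) (s : ℕ) :
    homogeneousComponent s (aeval ℓ c) = aeval ℓ (homogeneousComponent s c) := by
  induction c using MvPolynomial.induction_on' with
  | monomial d c =>
    have h0 : (monomial d c : MvPolynomial (Fin k) K).IsHomogeneous d.degree :=
      isHomogeneous_monomial c rfl
    have h1 : (aeval ℓ (monomial d c) : Poly K n).IsHomogeneous (1 * d.degree) := h0.aeval ℓ hℓ
    rw [one_mul] at h1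
    rw [homogeneousComponent_of_mem h1, homogeneousComponent_of_mem h0]
    by_cases h : s = d.degree <;> simp [h]
  | add p q hp hq => rw [map_add, map_add, map_add, map_add, hp, hq]

lemma aeval_scale {k : ℕ} {R : Type*} [CommRing R] [Algebra K R] (c : MvPolynomial (Fin k) K) {s : ℕ}
    (hc : c.IsHomogeneous s) (a : Fin k → K) (r : R) :
    aeval (fun i => algebraMap K R (a i) * r) c = algebraMap K R (eval a c) * r ^ s := by
  rw [aeval_def, eval₂_eq', eval_eq', map_sum, Finset.sum_mul]
  refine Finset.sum_congr rfl fun d hd => ?_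
  have h1 : ∑ i, d i = s := by
    have := hc (mem_support_iff.mp hd)
    rw [← Finsupp.degree_eq_sum]
    rw [← this, Finsupp.degree_eq_weight_one]
    rfl
  rw [map_mul, mul_assoc]
  congr 1
  rw [map_prod, ← h1, ← Finset.prod_pow_eq_pow_sum, ← Finset.prod_mul_distrib]
  refine Finset.prod_congr rfl fun i _ => ?_
  rw [mul_pow, map_pow]

/-- the quotient by `I` is integral over the algebra of the linear forms. -/
lemma integral_quot_aux {B : Type} [CommRing B] (I : Ideal (Poly K n)) (hI : Homog I) (π : Poly K n →+* B)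
    (hπ : Function.Surjective π) (hker : ∀ y ∈ I, π y = 0) {k : ℕ} (ℓ : Fin k → Poly K n)
    (hℓ : ∀ i, (ℓ i).IsHomogeneous 1) (h0 : NoZero I ℓ) (φ : MvPolynomial (Fin k) K →+* B)
    (hφC : ∀ c : K, φ (C c) = π (C c)) (hφX : ∀ i, φ (X i) = π (ℓ i)) :
    φ.IsIntegral := by
  letI : Algebra (MvPolynomial (Fin k) K) B := φ.toAlgebra
  choose M hM using h0
  set D := ∑ l, M l with hD
  let T : Set B := (fun e : Fin (n + 1) →₀ ℕ => π (monomial e 1)) '' {e | e.degree < D + 1}
  have hT : T.Finite := (Finsupp.finite_of_degree_lt (D + 1)).image _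
  let N : Submodule (MvPolynomial (Fin k) K) B := Submodule.span _ T
  have hsm : ∀ (x : MvPolynomial (Fin k) K) (y : B), x • y = φ x * y := fun x y => rfl
  have hC : ∀ (c : K) (y : Poly K n), π y ∈ N → π (C c * y) ∈ N := by
    intro c y hy
    have := N.smul_mem (C c) hy
    rw [hsm] at this
    rw [hφC, ← map_mul] at this
    exact this
  have hmon : ∀ (p : Poly K n) (s : ℕ), p.IsHomogeneous s →
      (∀ e : Fin (n + 1) →₀ ℕ, e.degree = s → π (monomial e (1 : K)) ∈ N) →
      π p ∈ N := by
    intro p s hp h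
    rw [p.as_sum, map_sum]
    refine Submodule.sum_mem _ fun v hv => ?_
    have h1 : monomial v (coeff v p) = C (coeff v p) * monomial v (1 : K) := by
      rw [C_mul_monomial, mul_one]
    rw [h1]
    apply hC
    apply h
    have := hp (mem_support_iff.mp hv)
    rw [← this, Finsupp.degree_eq_weight_one]
    rfl
  have key : ∀ s : ℕ, ∀ p : Poly K n, p.IsHomogeneous s → π p ∈ N := by
    intro s
    induction s with
    | zero =>
      intro p hp
      apply hmon p 0 hp
      intro e he
      apply Submodule.subset_span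
      exact ⟨e, by simp [he], rfl⟩
    | succ s ih =>
      intro p hp
      apply hmon p (s + 1) hp
      intro e he
      by_cases hlt : e.degree < D + 1
      · apply Submodule.subset_span
        exact ⟨e, hlt, rfl⟩
      · have hex : ∃ l, M l ≤ e l := by
          by_contra hcon
          push Not at hcon
          have : e.degree < D + 1 := by
            rw [Finsupp.degree_eq_sum]
            have := Finset.sum_le_sum (fun l (_ : l ∈ Finset.univ) => (hcon l).le)
            omega
          exact hlt this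
        obtain ⟨l, hl⟩ := hex
        have h1 : (monomial e (1 : K) : Poly K n) = monomial (e - Finsupp.single l (M l)) 1 * X l ^ M l := by
          rw [X_pow_eq_monomial, monomial_mul, mul_one]
          congr 1
          rw [tsub_add_cancel_of_le]
          simpa using hl
        obtain ⟨y, hy, z, hz, hyz⟩ := Submodule.mem_sup.mp (hM l)
        obtain ⟨b, hb⟩ := (Ideal.mem_span_range_iff_exists_fun).mp hz
        set u : Poly K n := monomial (e - Finsupp.single l (M l)) 1 with hu
        have h2 : (monomial e (1 : K) : Poly K n) = u * y + ∑ i, (u * b i) * ℓ i := by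
          rw [h1, ← hyz, mul_add, ← hb, Finset.mul_sum]
          congr 1
          refine Finset.sum_congr rfl fun i _ => ?_
          rw [mul_assoc]
        have h3 : (monomial e (1 : K) : Poly K n) =
            homogeneousComponent (s + 1) (u * y) + ∑ i, homogeneousComponent s (u * b i) * ℓ i := by
          have h4 := congrArg (homogeneousComponent (s + 1)) h2
          rw [homogeneousComponent_eq_self (isHomogeneous_monomial _ he), map_add, map_sum] at h4
          rw [h4]
          congr 1
          refine Finset.sum_congr rfl fun i _ => ?_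
          rw [hc_mul _ _ (hℓ i)]
        rw [h3, map_add, map_sum]
        refine Submodule.add_mem _ ?_ (Submodule.sum_mem _ fun i _ => ?_)
        · have : π (homogeneousComponent (s + 1) (u * y)) = 0 :=
            hker _ (hI _ (Ideal.mul_mem_left _ _ hy) _)
          rw [this]
          exact Submodule.zero_mem _
        · have h5 := N.smul_mem (X i) (ih _ (homogeneousComponent_isHomogeneous s (u * b i)))
          rw [hsm, hφX, ← map_mul, mul_comm] at h5
          exact h5
  have htop : N = ⊤ := by
    rw [eq_top_iff]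
    intro x _
    obtain ⟨p, rfl⟩ := hπ x
    rw [← sum_homogeneousComponent p, map_sum]
    exact Submodule.sum_mem _ fun i _ => key i _ (homogeneousComponent_isHomogeneous i p)
  haveI : Module.Finite (MvPolynomial (Fin k) K) B :=
    ⟨⟨hT.toFinset, by rw [Set.Finite.coe_toFinset]; exact htop⟩⟩
  intro x
  exact Algebra.IsIntegral.isIntegral x

lemma integral_quot (I : Ideal (Poly K n)) (hI : Homog I) {k : ℕ} (ℓ : Fin k → Poly K n)
    (hℓ : ∀ i, (ℓ i).IsHomogeneous 1) (h0 : NoZero I ℓ) :
    ((Ideal.Quotient.mk I).comp (aeval ℓ : MvPolynomial (Fin k) K →ₐ[K] Poly K n).toRingHom).IsIntegral :=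
  integral_quot_aux I hI (Ideal.Quotient.mk I) Ideal.Quotient.mk_surjective
    (fun y hy => Ideal.Quotient.eq_zero_iff_mem.mpr hy) ℓ hℓ h0 _
    (fun c => by
      show Ideal.Quotient.mk I (aeval ℓ (C c)) = _
      rw [aeval_C, algebraMap_eq])
    (fun i => by
      show Ideal.Quotient.mk I (aeval ℓ (X i)) = _
      rw [aeval_X])

lemma exists_const {A B : Type*} [CommRing A] [CommRing B] [IsDomain B] (φ : A →+* B) (γ : B) (hγ : γ ≠ 0) :
    ∀ (N : ℕ) (p : Polynomial A), p.Monic → p.natDegree = N → p.eval₂ φ γ = 0 →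
      ∃ c : A, φ c ≠ 0 ∧ φ c ∈ Ideal.span {γ} := by
  intro N
  induction N with
  | zero =>
    intro p hp hN h0
    rw [hp.natDegree_eq_zero.mp hN] at h0
    simp at h0
  | succ N ih =>
    intro p hp hN h0
    have h1 : p.divX * Polynomial.X + Polynomial.C (p.coeff 0) = p := Polynomial.divX_mul_X_add p
    have h2 : (p.divX).eval₂ φ γ * γ + φ (p.coeff 0) = 0 := by
      have := congrArg (Polynomial.eval₂ φ γ) h1
      rw [h0, Polynomial.eval₂_add, Polynomial.eval₂_mul_X, Polynomial.eval₂_C] at this
      exact this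
    by_cases hc : φ (p.coeff 0) = 0
    · rw [hc, add_zero] at h2
      have h3 : (p.divX).eval₂ φ γ = 0 := (mul_eq_zero.mp h2).resolve_right hγ
      refine ih p.divX ?_ ?_ h3
      · rw [Polynomial.Monic, Polynomial.leadingCoeff, Polynomial.natDegree_divX_eq_natDegree_tsub_one,
          Polynomial.coeff_divX, hN]
        have := hp
        rw [Polynomial.Monic, Polynomial.leadingCoeff, hN] at this
        simpa using this
      · rw [Polynomial.natDegree_divX_eq_natDegree_tsub_one, hN]; simp
    · refine ⟨_, hc, ?_⟩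
      rw [Ideal.mem_span_singleton']
      exact ⟨-(p.divX).eval₂ φ γ, by linear_combination -h2⟩

theorem t : S_NORM := by
  intro K _ _ n I hIp hI ℓ hℓ h0 g s hg hgI
  set φ : MvPolynomial (Fin 3) K →+* (Poly K n ⧸ I) :=
    (Ideal.Quotient.mk I).comp (aeval ℓ : MvPolynomial (Fin 3) K →ₐ[K] Poly K n).toRingHom with hφ
  have hint := integral_quot I hI ℓ hℓ h0
  obtain ⟨p, hp, hp0⟩ := hint (Ideal.Quotient.mk I g)
  have hg0 : Ideal.Quotient.mk I g ≠ 0 := fun h => hgI (Ideal.Quotient.eq_zero_iff_mem.mp h)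
  haveI := hIp
  obtain ⟨c, hc0, hc1⟩ := exists_const φ (Ideal.Quotient.mk I g) hg0 p.natDegree p hp rfl hp0
  -- the polynomial `c`
  have hc2 : aeval ℓ c ∈ I ⊔ Ideal.span {g} := by
    rw [Ideal.mem_span_singleton'] at hc1
    obtain ⟨a, ha⟩ := hc1
    obtain ⟨a, rfl⟩ := Ideal.Quotient.mk_surjective a
    have h1 : φ c = Ideal.Quotient.mk I (aeval ℓ c) := rfl
    rw [h1, ← map_mul, Ideal.Quotient.mk_eq_mk_iff_sub_mem] at ha
    have h2 : aeval ℓ c = -(a * g - aeval ℓ c) + a * g := by ring
    rw [h2]
    refine Ideal.add_mem _ (Ideal.mem_sup_left (Ideal.neg_mem_iff _ |>.mpr ha)) ?_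
    exact Ideal.mem_sup_right (Ideal.mul_mem_left _ _ (Ideal.mem_span_singleton_self g))
  have hcne : c ≠ 0 := by
    rintro rfl
    exact hc0 (map_zero _)
  obtain ⟨s, hs⟩ : ∃ s, homogeneousComponent s c ≠ 0 := by
    by_contra hcon
    push Not at hcon
    apply hcne
    rw [← sum_homogeneousComponent c]
    exact Finset.sum_eq_zero fun i _ => hcon i
  set A := homogeneousComponent s c with hA
  have hAh : A.IsHomogeneous s := homogeneousComponent_isHomogeneous s c
  have hAm : aeval ℓ A ∈ I ⊔ Ideal.span {g} := by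
    rw [hA, ← hc_aeval ℓ hℓ]
    exact homog_sup I hI g hg _ hc2 s
  obtain ⟨a, ha⟩ : ∃ a, eval a A ≠ 0 := by
    by_contra hcon
    push Not at hcon
    exact hs (hAh.eq_zero_of_forall_eval_eq_zero hcon)
  by_cases hsz : s = 0
  · -- trivial case
    refine ⟨fun _ => 0, fun _ => isHomogeneous_zero _ _ _, fun l => ⟨0, ?_⟩⟩
    rw [pow_zero]
    apply Ideal.mem_sup_left
    have h1 : A = C (coeff 0 c) := by
      rw [hA, hsz, homogeneousComponent_zero]
    rw [h1] at hAm ha hs
    rw [aeval_C] at hAm
    have h2 : coeff 0 c ≠ 0 := by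
      intro h
      apply hs
      rw [h, C_0]
    have h3 := Ideal.mul_mem_left _ (C (coeff 0 c)⁻¹) hAm
    rw [algebraMap_eq, ← C_mul, inv_mul_cancel₀ h2, C_1] at h3
    exact h3
  · -- main case
    obtain ⟨i₀, hi₀⟩ : ∃ i, a i ≠ 0 := by
      by_contra hcon
      push Not at hcon
      apply ha
      have h1 := aeval_scale (R := K) A hAh a 0
      rw [zero_pow hsz, mul_zero] at h1
      have h2 : (fun i => algebraMap K K (a i) * 0) = a := by
        ext i; simp [hcon i]
      rw [h2] at h1
      rw [← coe_aeval_eq_eval]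
      exact h1
    refine ⟨fun j => C (a i₀) * ℓ (i₀.succAbove j) - C (a (i₀.succAbove j)) * ℓ i₀, fun j => ?_, ?_⟩
    · exact ((hℓ _).C_mul _).sub ((hℓ _).C_mul _)
    · set m : Fin 2 → Poly K n :=
        fun j => C (a i₀) * ℓ (i₀.succAbove j) - C (a (i₀.succAbove j)) * ℓ i₀ with hm
      set Q := (I ⊔ Ideal.span {g}) ⊔ Ideal.span (Set.range m) with hQ
      have hrel : ∀ i, Ideal.Quotient.mk Q (ℓ i) =
          algebraMap K (Poly K n ⧸ Q) (a i) *
            (algebraMap K (Poly K n ⧸ Q) (a i₀)⁻¹ * Ideal.Quotient.mk Q (ℓ i₀)) := by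
        intro i
        have hCm : ∀ x : K, algebraMap K (Poly K n ⧸ Q) x = Ideal.Quotient.mk Q (C x) := fun x => rfl
        rcases eq_or_ne i i₀ with rfl | hne
        · rw [← mul_assoc, ← map_mul, mul_inv_cancel₀ hi₀, map_one, one_mul]
        · obtain ⟨j, rfl⟩ := Fin.exists_succAbove_eq hne
          have h1 : m j ∈ Q := Ideal.mem_sup_right (Ideal.subset_span ⟨j, rfl⟩)
          have h2 : Ideal.Quotient.mk Q (m j) = 0 := Ideal.Quotient.eq_zero_iff_mem.mpr h1
          rw [hm] at h2
          simp only [map_sub, map_mul, sub_eq_zero] at h2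
          rw [← hCm, ← hCm] at h2
          have h3 : algebraMap K (Poly K n ⧸ Q) (a i₀)⁻¹ * algebraMap K (Poly K n ⧸ Q) (a i₀) = 1 := by
            rw [← map_mul, inv_mul_cancel₀ hi₀, map_one]
          calc Ideal.Quotient.mk Q (ℓ (i₀.succAbove j))
              = (algebraMap K (Poly K n ⧸ Q) (a i₀)⁻¹ * algebraMap K (Poly K n ⧸ Q) (a i₀)) *
                Ideal.Quotient.mk Q (ℓ (i₀.succAbove j)) := by rw [h3, one_mul]
            _ = _ := by rw [mul_assoc, h2]; ring
      set r := algebraMap K (Poly K n ⧸ Q) (a i₀)⁻¹ * Ideal.Quotient.mk Q (ℓ i₀) with hr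
      have hrs : r ^ s = 0 := by
        have h1 := aeval_scale (R := Poly K n ⧸ Q) A hAh a r
        have h2 : (fun i => algebraMap K (Poly K n ⧸ Q) (a i) * r) = fun i => Ideal.Quotient.mk Q (ℓ i) := by
          ext i; exact (hrel i).symm
        rw [h2] at h1
        have h3 : (aeval fun i => Ideal.Quotient.mk Q (ℓ i)) A = Ideal.Quotient.mk Q (aeval ℓ A) := by
          have := (MvPolynomial.map_aeval ℓ (Ideal.Quotient.mk Q) A)
          rw [this, aeval_def]
          rfl
        rw [h3, Ideal.Quotient.eq_zero_iff_mem.mpr (Ideal.mem_sup_left hAm)] at h1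
        have h4 : algebraMap K (Poly K n ⧸ Q) (eval a A)⁻¹ * algebraMap K (Poly K n ⧸ Q) (eval a A) = 1 := by
          rw [← map_mul, inv_mul_cancel₀ ha, map_one]
        calc r ^ s = (algebraMap K (Poly K n ⧸ Q) (eval a A)⁻¹ * algebraMap K (Poly K n ⧸ Q) (eval a A)) * r ^ s := by
              rw [h4, one_mul]
          _ = 0 := by rw [mul_assoc, ← h1, mul_zero]
      have hℓr : ∀ i, ℓ i ∈ Q.radical := by
        intro i
        refine ⟨s, ?_⟩
        rw [← Ideal.Quotient.eq_zero_iff_mem, map_pow, hrel i, mul_pow, hrs, mul_zero]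
      intro l
      have h1 : (X l : Poly K n) ∈ (I ⊔ Ideal.span (Set.range ℓ)).radical := h0 l
      have h2 : I ⊔ Ideal.span (Set.range ℓ) ≤ Q.radical := by
        refine sup_le ?_ ?_
        · exact le_trans (le_trans le_sup_left le_sup_left) Ideal.le_radical
        · rw [Ideal.span_le]
          rintro _ ⟨i, rfl⟩
          exact hℓr i
      have h3 := Ideal.radical_mono h2 h1
      rw [Ideal.radical_idem] at h3
      exact h3

end Pool.Agent.H55.MZ.NORM
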