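import Pool.Agent.H55.MZ.Stm

set_option autoImplicit false

open MvPolynomial Filter Topology Height

namespace Pool.Agent.H55.MZ.NULL

theorem comp_mul {K : Type} [Field K] {n : ℕ} (a p : Poly K n) {N : ℕ} (M : ℕ)
    (hp : p.IsHomogeneous N) :
    homogeneousComponent (M + N) (a * p) = homogeneousComponent M a * p := by
  have h1 : a * p = ∑ i ∈ Finset.range (a.totalDegree + 1), homogeneousComponent i a * p := by
    rw [← Finset.sum_mul, sum_homogeneousComponent]
  have h2 : ∀ i, homogeneousComponent (M + N) (homogeneousComponent i a * p) =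
      if i = M then homogeneousComponent M a * p else 0 := by
    intro i
    have h3 : homogeneousComponent i a * p ∈ homogeneousSubmodule (Fin (n + 1)) K (i + N) :=
      (homogeneousComponent_isHomogeneous i a).mul hp
    rw [homogeneousComponent_of_mem h3]
    by_cases h : i = M
    · subst h
      rw [if_pos rfl, if_pos rfl]
    · rw [if_neg h, if_neg]
      omega
  conv_lhs => rw [h1, map_sum]
  simp only [h2]
  rw [Finset.sum_ite_eq']
  by_cases hM : M ∈ Finset.range (a.totalDegree + 1)
  · rw [if_pos hM]
  · rw [if_neg hM, homogeneousComponent_eq_zero, zero_mul]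
    rw [Finset.mem_range] at hM
    omega

theorem t : S_NULL := by
  intro K _ n J hJ ι _ N p hp hz
  choose m hm using hz
  set M : ℕ := ∑ l, m l with hMdef
  have hle : ∀ l, m l ≤ M := fun l =>
    Finset.single_le_sum (f := m) (fun i _ => Nat.zero_le _) (Finset.mem_univ l)
  have h1 : ∀ l, ∃ c : ι → Poly K n, (X l : Poly K n) ^ (M + N) - ∑ j, c j * p j ∈ J := by
    intro l
    have h2 : (X l : Poly K n) ^ (M + N) ∈ J ⊔ Ideal.span (Set.range p) := by
      have h3 : M + N = (M + N - m l) + m l := by
        have := hle l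
        omega
      rw [h3, pow_add]
      exact Ideal.mul_mem_left _ _ (hm l)
    obtain ⟨g, hg, s, hs, hgs⟩ := Submodule.mem_sup.mp h2
    obtain ⟨c, hc⟩ := Ideal.mem_span_range_iff_exists_fun.mp hs
    refine ⟨c, ?_⟩
    rw [hc, ← hgs, add_sub_cancel_right]
    exact hg
  choose c hc using h1
  refine ⟨M, fun a => homogeneousComponent M (c a.1 a.2),
    fun a => homogeneousComponent_isHomogeneous _ _, ?_⟩
  intro l
  have h4 := hJ _ (hc l) (M + N)
  rw [map_sub, map_sum] at h4
  have h5 : homogeneousComponent (M + N) ((X l : Poly K n) ^ (M + N)) = X l ^ (M + N) :=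
    homogeneousComponent_eq_self (isHomogeneous_X_pow l (M + N))
  rw [h5] at h4
  have h6 : ∀ j, homogeneousComponent (M + N) (c l j * p j) =
      homogeneousComponent M (c l j) * p j := fun j => comp_mul _ _ M (hp j)
  simp only [h6] at h4
  exact h4

end Pool.Agent.H55.MZ.NULL
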