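import Pool.Agent.H55.MZ.Dens

/-!
# Project MZ: local closures
-/

set_option autoImplicit false

open MvPolynomial Filter Topology Height

namespace Pool.Agent.H55.MZ

section Loc

variable {K : Type} [Field K] {n : ℕ}

/-- The point with the coordinates `w` over `K` is at a distance less than `ε` from the point with the coordinates `x`
over `L`: some vector proportional to `w` is. -/
def Near {L : Type} [NormedField L] (σ : K →+* L) (w : Fin (n + 1) → K) (x : Fin (n + 1) → L) (ε : ℝ) : Prop :=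
  ∃ c : L, c ≠ 0 ∧ ∀ i, ‖c * σ (w i) - x i‖ < ε

/-- The ideal of the local Zariski closure at `x` of the set of `K`-points of the variety of `I`: the polynomials
which vanish at all `K`-points in some neighbourhood of `x`. -/
def localIdeal (I : Ideal (Poly K n)) {L : Type} [NormedField L] (σ : K →+* L) (x : Fin (n + 1) → L) :
    Ideal (Poly K n) where
  carrier := {g | ∃ ε : ℝ, 0 < ε ∧ ∀ w, Pt I w → Near σ w x ε → eval w g = 0}
  add_mem' := by
    rintro a b ⟨ε, hε, ha⟩ ⟨δ, hδ, hb⟩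
    refine ⟨min ε δ, lt_min hε hδ, fun w hw ⟨c, hc, hn⟩ => ?_⟩
    rw [map_add, ha w hw ⟨c, hc, fun i => (hn i).trans_le (min_le_left _ _)⟩,
      hb w hw ⟨c, hc, fun i => (hn i).trans_le (min_le_right _ _)⟩, add_zero]
  zero_mem' := ⟨1, one_pos, fun w _ _ => map_zero _⟩
  smul_mem' := by
    rintro a b ⟨ε, hε, hb⟩
    exact ⟨ε, hε, fun w hw hn => by rw [smul_eq_mul, map_mul, hb w hw hn, mul_zero]⟩

/-- The ideal of a point: the polynomials which vanish at all vectors proportional to `t`. -/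
def pointIdeal (t : Fin (n + 1) → K) : Ideal (Poly K n) where
  carrier := {g | ∀ c : K, c ≠ 0 → eval (c • t) g = 0}
  add_mem' := by
    intro a b ha hb c hc
    rw [map_add, ha c hc, hb c hc, add_zero]
  zero_mem' := fun c _ => map_zero _
  smul_mem' := by
    intro a b hb c hc
    rw [smul_eq_mul, map_mul, hb c hc, mul_zero]

variable {L : Type} [NormedField L] {σ : K →+* L}

lemma mem_localIdeal {I : Ideal (Poly K n)} {x : Fin (n + 1) → L} {g : Poly K n} :
    g ∈ localIdeal I σ x ↔ ∃ ε : ℝ, 0 < ε ∧ ∀ w, Pt I w → Near σ w x ε → eval w g = 0 := Iff.rfl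

lemma mem_pointIdeal {t : Fin (n + 1) → K} {g : Poly K n} :
    g ∈ pointIdeal t ↔ ∀ c : K, c ≠ 0 → eval (c • t) g = 0 := Iff.rfl

lemma Near.par {w w' : Fin (n + 1) → K} {x : Fin (n + 1) → L} {ε : ℝ} (h : Near σ w x ε) (hw : Par w w') :
    Near σ w' x ε := by
  obtain ⟨c, hc, hn⟩ := h
  obtain ⟨a, ha, rfl⟩ := hw
  have ha' : σ a ≠ 0 := (map_ne_zero σ).2 ha
  refine ⟨c / σ a, div_ne_zero hc ha', fun i => ?_⟩
  have : c / σ a * σ ((a • w) i) = c * σ (w i) := by
    simp only [Pi.smul_apply, smul_eq_mul, map_mul]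
    field_simp
  rw [this]
  exact hn i

lemma near_self (w : Fin (n + 1) → K) {ε : ℝ} (hε : 0 < ε) : Near σ w (fun i => σ (w i)) ε :=
  ⟨1, one_ne_zero, fun i => by simpa using hε⟩

lemma pointIdeal_par {t t' : Fin (n + 1) → K} (h : Par t t') : pointIdeal t = pointIdeal t' := by
  obtain ⟨a, ha, rfl⟩ := h
  ext g
  constructor
  · intro hg c hc
    have := hg (c * a) (mul_ne_zero hc ha)
    rwa [mul_smul] at this
  · intro hg c hc
    have := hg (c / a) (div_ne_zero hc ha)
    rwa [smul_smul, div_mul_cancel₀ _ ha] at this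

/-- the ideal of `X` is contained in all local ideals -/
lemma le_localIdeal (I : Ideal (Poly K n)) (σ : K →+* L) (x : Fin (n + 1) → L) : I ≤ localIdeal I σ x :=
  fun g hg => ⟨1, one_pos, fun _ hw _ => hw.2 g hg⟩

/-- different points have disjoint neighbourhoods -/
lemma not_near {t : Fin (n + 1) → K} {x : Fin (n + 1) → L} (ht : t ≠ 0)
    (h : ¬ ∃ c : L, c ≠ 0 ∧ x = fun i => c * σ (t i)) (hx : x ≠ 0) :
    ∃ ε : ℝ, 0 < ε ∧ ¬ Near σ t x ε := by
  -- a nonzero minor
  have hmin : ∃ i j, x i * σ (t j) - x j * σ (t i) ≠ 0 := by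
    by_contra hcon
    push Not at hcon
    obtain ⟨j, hj⟩ : ∃ j, t j ≠ 0 := by
      by_contra hcon'; push Not at hcon'; exact ht (funext hcon')
    have hj' : σ (t j) ≠ 0 := (map_ne_zero σ).2 hj
    apply h
    refine ⟨x j / σ (t j), ?_, ?_⟩
    · intro h0
      apply hx
      funext i
      have h1 := hcon i j
      have h2 : x j = 0 := by
        rcases div_eq_zero_iff.1 h0 with h3 | h3
        · exact h3
        · exact absurd h3 hj'
      rw [h2, zero_mul, sub_zero] at h1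
      rcases mul_eq_zero.1 h1 with h3 | h3
      · simpa using h3
      · exact absurd h3 hj'
    · funext i
      have h1 := hcon i j
      rw [div_mul_eq_mul_div, eq_div_iff hj']
      linear_combination h1
  obtain ⟨i, j, hij⟩ := hmin
  set B : ℝ := ‖σ (t i)‖ + ‖σ (t j)‖ + 1 with hB
  have hBpos : 0 < B := by positivity
  have hpos : 0 < ‖x i * σ (t j) - x j * σ (t i)‖ := norm_pos_iff.2 hij
  refine ⟨‖x i * σ (t j) - x j * σ (t i)‖ / B, div_pos hpos hBpos, ?_⟩
  rintro ⟨c, hc, hn⟩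
  have h1 : x i * σ (t j) - x j * σ (t i) =
      (c * σ (t j) - x j) * σ (t i) - (c * σ (t i) - x i) * σ (t j) := by ring
  have h2 : ‖x i * σ (t j) - x j * σ (t i)‖ ≤
      ‖x i * σ (t j) - x j * σ (t i)‖ / B * (‖σ (t i)‖ + ‖σ (t j)‖) := by
    conv_lhs => rw [h1]
    refine (norm_sub_le _ _).trans ?_
    rw [norm_mul, norm_mul, mul_add]
    exact add_le_add (mul_le_mul_of_nonneg_right (hn j).le (norm_nonneg _))
      (mul_le_mul_of_nonneg_right (hn i).le (norm_nonneg _))
  have h3 : ‖x i * σ (t j) - x j * σ (t i)‖ / B * (‖σ (t i)‖ + ‖σ (t j)‖) <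
      ‖x i * σ (t j) - x j * σ (t i)‖ := by
    rw [div_mul_eq_mul_div, div_lt_iff₀ hBpos, hB]
    nlinarith
  linarith

/-- The alternatives at a point, if the `K`-points outside `T` have the local closure `X`. -/
lemma alternatives (I : Ideal (Poly K n)) (T : Finset (Fin (n + 1) → K)) (hT : ∀ t ∈ T, Pt I t)
    (σ : K →+* L) (hd : ∀ P, Pt I P → (∀ t ∈ T, ¬ Par t P) → localIdeal I σ (fun i => σ (P i)) = I)
    (x : Fin (n + 1) → L) (hx : x ≠ 0) (hI : Homog I) :
    localIdeal I σ x = ⊤ ∨ localIdeal I σ x = I ∨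
      ∃ t ∈ T, (∃ c : L, c ≠ 0 ∧ x = fun i => c * σ (t i)) ∧ localIdeal I σ x = pointIdeal t := by
  classical
  by_cases hA : ∀ ε : ℝ, 0 < ε → ∃ P, Pt I P ∧ Near σ P x ε ∧ ∀ t ∈ T, ¬ Par t P
  · right; left
    refine le_antisymm ?_ (le_localIdeal I σ x)
    rintro g ⟨ε, hε, hg⟩
    obtain ⟨P, hP, ⟨c, hc, hn⟩, hPT⟩ := hA (ε / 2) (by linarith)
    rw [← hd P hP hPT]
    have hcpos : 0 < ‖c‖ := norm_pos_iff.2 hc
    refine ⟨ε / 2 / ‖c‖, by positivity, ?_⟩
    rintro w hw ⟨e, he, hen⟩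
    refine hg w hw ⟨c * e, mul_ne_zero hc he, fun i => ?_⟩
    have h1 : c * e * σ (w i) - x i = c * (e * σ (w i) - σ (P i)) + (c * σ (P i) - x i) := by ring
    rw [h1]
    refine (norm_add_le _ _).trans_lt ?_
    rw [norm_mul]
    have h2 : ‖c‖ * ‖e * σ (w i) - σ (P i)‖ < ε / 2 := by
      have := mul_lt_mul_of_pos_left (hen i) hcpos
      rwa [mul_div_cancel₀ _ hcpos.ne'] at this
    linarith [hn i]
  · push Not at hA
    obtain ⟨ε0, hε0, hA⟩ := hA
    -- exclude the points of `T` different from `x`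
    have hex : ∀ t : Fin (n + 1) → K, t ∈ T → ∃ ε : ℝ, 0 < ε ∧
        ((∃ c : L, c ≠ 0 ∧ x = fun i => c * σ (t i)) ∨ ¬ Near σ t x ε) := by
      intro t ht
      by_cases h : ∃ c : L, c ≠ 0 ∧ x = fun i => c * σ (t i)
      · exact ⟨1, one_pos, Or.inl h⟩
      · obtain ⟨ε, hε, h'⟩ := not_near (hT t ht).1 h hx
        exact ⟨ε, hε, Or.inr h'⟩
    choose! E hE hE' using hex
    obtain ⟨ε1, hε1, hle⟩ : ∃ ε1 : ℝ, 0 < ε1 ∧ ∀ t ∈ T, ε1 ≤ E t := by
      by_cases hTe : T.Nonempty
      · obtain ⟨t0, ht0, hmin⟩ := Finset.exists_min_image T E hTe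
        exact ⟨E t0, hE t0 ht0, fun t ht => hmin t ht⟩
      · rw [Finset.not_nonempty_iff_eq_empty] at hTe
        exact ⟨1, one_pos, fun t ht => by simp [hTe] at ht⟩
    have hnear : ∀ w, Pt I w → Near σ w x (min ε0 ε1) → ∃ t ∈ T, Par t w ∧
        ∃ c : L, c ≠ 0 ∧ x = fun i => c * σ (t i) := by
      rintro w hw ⟨c, hc, hn⟩
      obtain ⟨t, ht, hpar⟩ := hA w hw ⟨c, hc, fun i => (hn i).trans_le (min_le_left _ _)⟩
      refine ⟨t, ht, hpar, ?_⟩
      rcases hE' t ht with h | h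
      · exact h
      · exfalso
        apply h
        refine Near.par ⟨c, hc, fun i => (hn i).trans_le ((min_le_right _ _).trans (hle t ht))⟩ hpar.symm
    by_cases hB : ∃ t ∈ T, ∃ c : L, c ≠ 0 ∧ x = fun i => c * σ (t i)
    · obtain ⟨t, ht, c, hc, hxt⟩ := hB
      right; right
      refine ⟨t, ht, ⟨c, hc, hxt⟩, le_antisymm ?_ ?_⟩
      · rintro g ⟨ε, hε, hg⟩ a ha
        refine hg (a • t) ((hT t ht).smul hI ha) ?_
        refine Near.par (w := t) ⟨c, hc, fun i => ?_⟩ ⟨a, ha, rfl⟩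
        rw [hxt]; simpa using hε
      · intro g hg
        refine ⟨min ε0 ε1, lt_min hε0 hε1, fun w hw hn => ?_⟩
        obtain ⟨t', ht', hpar, c', hc', hxt'⟩ := hnear w hw hn
        have htt' : Par t t' := by
          have h1 : ∀ i, c * σ (t i) = c' * σ (t' i) := fun i => by
            have := congrFun (hxt.symm.trans hxt') i
            simpa using this
          refine par_of_minors (hT t ht).1 (hT t' ht').1 fun l m => ?_
          apply σ.injective
          rw [map_mul, map_mul]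
          apply mul_left_cancel₀ hc'
          have e1 := h1 l
          have e2 := h1 m
          linear_combination (-σ (t m)) * e1 + σ (t l) * e2
        obtain ⟨a, ha, rfl⟩ := htt'.trans hpar
        exact hg a ha
    · left
      rw [Ideal.eq_top_iff_one]
      refine ⟨min ε0 ε1, lt_min hε0 hε1, fun w hw hn => ?_⟩
      obtain ⟨t', ht', hpar, c', hc', hxt'⟩ := hnear w hw hn
      exact absurd ⟨t', ht', c', hc', hxt'⟩ hB

end Loc

end Pool.Agent.H55.MZ
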