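import Pool.Agent.H55.MZ.Stm

/-!
# Project MZ (helper55), stub GOOD (helper95)
-/

set_option autoImplicit false

namespace Pool.Agent.H55.MZ.GOOD

open MvPolynomial

/-- algebraic integers have norm at most one in an ultrametric field -/
lemma norm_le_of_isIntegral {L : Type} [NontriviallyNormedField L] [IsUltrametricDist L] (x : L)
    (hx : IsIntegral ℤ x) : ‖x‖ ≤ 1 := by
  obtain ⟨p, hp, hpx⟩ := hx
  by_contra hcon
  push Not at hcon
  rw [Polynomial.eval₂_eq_sum_range, Finset.sum_range_succ, hp.coeff_natDegree, map_one, one_mul] at hpx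
  rcases Nat.eq_zero_or_pos p.natDegree with h0 | h0
  · rw [h0] at hpx
    simp at hpx
  have h1 : ‖x ^ p.natDegree‖ ≤ ‖x‖ ^ (p.natDegree - 1) := by
    have h2 : x ^ p.natDegree = -∑ i ∈ Finset.range p.natDegree, (algebraMap ℤ L) (p.coeff i) * x ^ i := by
      linear_combination hpx
    rw [h2, norm_neg]
    refine IsUltrametricDist.norm_sum_le_of_forall_le_of_nonneg (by positivity) fun i hi => ?_
    rw [Finset.mem_range] at hi
    rw [norm_mul, norm_pow]
    have h3 : ‖(algebraMap ℤ L) (p.coeff i)‖ ≤ 1 := by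
      rw [eq_intCast]
      exact IsUltrametricDist.norm_intCast_le_one L _
    calc ‖(algebraMap ℤ L) (p.coeff i)‖ * ‖x‖ ^ i ≤ 1 * ‖x‖ ^ (p.natDegree - 1) := by
          apply mul_le_mul h3 _ (by positivity) zero_le_one
          exact pow_le_pow_right₀ hcon.le (by omega)
      _ = _ := one_mul _
  rw [norm_pow] at h1
  have h4 : ‖x‖ ^ (p.natDegree - 1) < ‖x‖ ^ p.natDegree := pow_lt_pow_right₀ hcon (by omega)
  linarith

/-- the values at integral points of polynomials with integral coefficients -/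
lemma eval_le {K : Type} [Field K] {n : ℕ} {L : Type} [NontriviallyNormedField L] [IsUltrametricDist L]
    (σ : K →+* L) (f : Poly K n) (hf : ∀ e, ‖σ (f.coeff e)‖ ≤ 1) (x : Fin (n + 1) → K)
    (hx : ∀ i, ‖σ (x i)‖ ≤ 1) : ‖σ (eval x f)‖ ≤ 1 := by
  rw [eval_eq, map_sum]
  refine IsUltrametricDist.norm_sum_le_of_forall_le_of_nonneg zero_le_one fun e _ => ?_
  rw [map_mul, norm_mul, map_prod, norm_prod]
  apply mul_le_one₀ (hf e) (by positivity)
  apply Finset.prod_le_one (fun _ _ => norm_nonneg _)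
  intro i _
  rw [map_pow, norm_pow]
  exact pow_le_one₀ (norm_nonneg _) (hx i)

theorem t (hN : S_NULL) : S_GOOD := by
  intro K _ _ n I hI d Φ hΦ
  obtain ⟨M, q, hq, hrel⟩ := hN K n I hI (Fin (n + 1) × Fin (n + 1)) d (fun p => Φ p.1 p.2)
    (fun p => hΦ.hom p.1 p.2) hΦ.base
  classical
  set s : Finset K := (Finset.univ : Finset (Fin (n + 1) × Fin (n + 1))).biUnion
      (fun p => (Φ p.1 p.2).support.image (fun e => (Φ p.1 p.2).coeff e)) ∪
    (Finset.univ : Finset (Fin (n + 1) × (Fin (n + 1) × Fin (n + 1)))).biUnion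
      (fun p => (q p).support.image (fun e => (q p).coeff e)) with hs
  obtain ⟨y, hy0, hy⟩ := exists_integral_multiples ℤ ℚ s
  refine ⟨y.natAbs, by omega, ?_⟩
  intro L _ _ σ hNL
  have hyL : ‖(y : L)‖ = 1 := by
    rcases Int.natAbs_eq y with h | h
    · have h' := congrArg (fun t : ℤ => (t : L)) h
      simp only [Int.cast_natCast] at h'
      rw [h']
      exact hNL
    · have h' := congrArg (fun t : ℤ => (t : L)) h
      simp only [Int.cast_neg, Int.cast_natCast] at h'
      rw [h', norm_neg]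
      exact hNL
  have hcoef : ∀ z ∈ s, ‖σ z‖ ≤ 1 := by
    intro z hz
    have h1 : IsIntegral ℤ (σ (y • z)) := (hy z hz).map σ.toIntAlgHom
    have h2 := norm_le_of_isIntegral _ h1
    rw [zsmul_eq_mul, map_mul, map_intCast, norm_mul, hyL, one_mul] at h2
    exact h2
  have hΦc : ∀ i j e, ‖σ ((Φ i j).coeff e)‖ ≤ 1 := by
    intro i j e
    by_cases he : e ∈ (Φ i j).support
    · apply hcoef
      rw [hs, Finset.mem_union, Finset.mem_biUnion]
      left
      exact ⟨(i, j), Finset.mem_univ _, Finset.mem_image.mpr ⟨e, he, rfl⟩⟩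
    · rw [notMem_support_iff.mp he, map_zero, norm_zero]
      exact zero_le_one
  have hqc : ∀ p e, ‖σ ((q p).coeff e)‖ ≤ 1 := by
    intro p e
    by_cases he : e ∈ (q p).support
    · apply hcoef
      rw [hs, Finset.mem_union, Finset.mem_biUnion, Finset.mem_biUnion]
      right
      exact ⟨p, Finset.mem_univ _, Finset.mem_image.mpr ⟨e, he, rfl⟩⟩
    · rw [notMem_support_iff.mp he, map_zero, norm_zero]
      exact zero_le_one
  refine ⟨hΦc, ?_⟩
  intro x hx hx1 ⟨l, hl⟩
  by_contra hcon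
  push Not at hcon
  have hlt : ∀ i j, ‖σ (eval x (Φ i j))‖ < 1 := fun i j =>
    lt_of_le_of_ne (eval_le σ _ (hΦc i j) x hx1) (hcon i j)
  have h1 := hx.2 _ (hrel l)
  rw [map_sub, map_pow, eval_X, map_sum, sub_eq_zero] at h1
  have h2 := congrArg σ h1
  rw [map_pow, map_sum] at h2
  have h3 := congrArg norm h2
  rw [norm_pow, hl, one_pow] at h3
  obtain ⟨p, -, hp⟩ := IsUltrametricDist.exists_norm_finsetSum_le
    (Finset.univ : Finset (Fin (n + 1) × Fin (n + 1))) (fun j => σ (eval x (q (l, j) * Φ j.1 j.2)))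
  have h4 : ‖σ (eval x (q (l, p) * Φ p.1 p.2))‖ < 1 := by
    rw [map_mul, map_mul, norm_mul]
    calc ‖σ (eval x (q (l, p)))‖ * ‖σ (eval x (Φ p.1 p.2))‖ ≤ 1 * ‖σ (eval x (Φ p.1 p.2))‖ := by
          gcongr
          exact eval_le σ _ (hqc _) x hx1
      _ < 1 := by
          rw [one_mul]
          exact hlt _ _
  linarith

end Pool.Agent.H55.MZ.GOOD
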