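import Pool.Agent.H55.MZ.Stm

set_option autoImplicit false

namespace Pool.Agent.H55.MZ.RATIO

open Polynomial Filter Topology Height

/-! ### Algebra -/

theorem bez {K : Type} [Field K] (f S : Polynomial (Polynomial K)) (hf : Irreducible f) (hn : f.natDegree ≠ 0)
    (hS : S ≠ 0) (hSd : S.natDegree < f.natDegree) :
    ∃ (A B : Polynomial (Polynomial K)) (d : Polynomial K), d ≠ 0 ∧ A * f + B * S = C d := by
  classical
  set F := FractionRing (Polynomial K)
  have hinj : Function.Injective (algebraMap (Polynomial K) F) := IsFractionRing.injective _ _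
  have hfp := hf.isPrimitive hn
  have hf' := (hfp.irreducible_iff_irreducible_map_fraction_map (K := F)).1 hf
  have hS' : S.map (algebraMap (Polynomial K) F) ≠ 0 := (Polynomial.map_ne_zero_iff hinj).2 hS
  have hnd : ¬ f.map (algebraMap (Polynomial K) F) ∣ S.map (algebraMap (Polynomial K) F) := by
    intro h
    have h1 := natDegree_le_of_dvd h hS'
    rw [natDegree_map_eq_of_injective hinj, natDegree_map_eq_of_injective hinj] at h1
    omega
  obtain ⟨a, b, hab⟩ := (hf'.coprime_iff_not_dvd).2 hnd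
  obtain ⟨d1, hd1, h1⟩ := IsLocalization.integerNormalization_spec (nonZeroDivisors (Polynomial K)) a
  obtain ⟨d2, hd2, h2⟩ := IsLocalization.integerNormalization_spec (nonZeroDivisors (Polynomial K)) b
  set A1 := IsLocalization.integerNormalization (nonZeroDivisors (Polynomial K)) a with hA1
  set B1 := IsLocalization.integerNormalization (nonZeroDivisors (Polynomial K)) b with hB1
  refine ⟨C d2 * A1, C d1 * B1, d1 * d2, mul_ne_zero (nonZeroDivisors.ne_zero hd1) (nonZeroDivisors.ne_zero hd2), ?_⟩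
  apply Polynomial.map_injective _ hinj
  rw [← algebraMap_smul F d1 a, smul_eq_C_mul] at h1
  rw [← algebraMap_smul F d2 b, smul_eq_C_mul] at h2
  simp only [Polynomial.map_add, Polynomial.map_mul, Polynomial.map_C, map_mul]
  rw [h1, h2]
  linear_combination (C (algebraMap (Polynomial K) F d1) * C (algebraMap (Polynomial K) F d2)) * hab

/-! ### Coefficients -/

section

variable {K : Type} [Field K]

/-- the coefficient of `u ^ i v ^ j` -/
noncomputable def cf (P : Polynomial (Polynomial K)) (i j : ℕ) : K := (P.coeff j).coeff i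

theorem ext_cf {P Q : Polynomial (Polynomial K)} (h : ∀ i j, cf P i j = cf Q i j) : P = Q := by
  ext j i
  exact h i j

theorem cf_mul_zero {P Q : Polynomial (Polynomial K)} {m n I J : ℕ} (hP1 : ∀ i j, m < i → cf P i j = 0)
    (hP2 : ∀ i j, n < j → cf P i j = 0) (hQ1 : ∀ i j, I ≤ i → cf Q i j = 0) (hQ2 : ∀ i j, J ≤ j → cf Q i j = 0)
    (i j : ℕ) (h : m + I ≤ i ∨ n + J ≤ j) : cf (P * Q) i j = 0 := by
  unfold cf
  rw [coeff_mul, finsetSum_coeff]
  refine Finset.sum_eq_zero fun p hp => ?_
  rw [Finset.HasAntidiagonal.mem_antidiagonal] at hp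
  rw [coeff_mul]
  refine Finset.sum_eq_zero fun q hq => ?_
  rw [Finset.HasAntidiagonal.mem_antidiagonal] at hq
  rcases h with h | h
  · rcases Nat.lt_or_ge m q.1 with h1 | h1
    · have := hP1 q.1 p.1 h1
      unfold cf at this
      rw [this, zero_mul]
    · have := hQ1 q.2 p.2 (by omega)
      unfold cf at this
      rw [this, mul_zero]
  · rcases Nat.lt_or_ge n p.1 with h1 | h1
    · have := hP2 q.1 p.1 h1
      unfold cf at this
      rw [this, zero_mul]
    · have := hQ2 q.2 p.2 (by omega)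
      unfold cf at this
      rw [this, mul_zero]

/-- the polynomial with the coefficients `c` -/
noncomputable def toP (I J : ℕ) : (Fin I × Fin J → K) →ₗ[K] Polynomial (Polynomial K) where
  toFun c := ∑ a, monomial (a.2 : ℕ) (monomial (a.1 : ℕ) (c a))
  map_add' c c' := by
    rw [← Finset.sum_add_distrib]
    refine Finset.sum_congr rfl fun a _ => ?_
    rw [← map_add, ← map_add]
    rfl
  map_smul' r c := by
    rw [RingHom.id_apply, Finset.smul_sum]
    refine Finset.sum_congr rfl fun a _ => ?_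
    rw [smul_monomial, smul_monomial]
    rfl

theorem cf_toP (I J : ℕ) (c : Fin I × Fin J → K) (i j : ℕ) :
    cf (toP I J c) i j = if h : i < I ∧ j < J then c (⟨i, h.1⟩, ⟨j, h.2⟩) else 0 := by
  unfold cf
  change ((∑ a, monomial (a.2 : ℕ) (monomial (a.1 : ℕ) (c a))).coeff j).coeff i = _
  rw [finsetSum_coeff, finsetSum_coeff]
  simp only [coeff_monomial]
  split_ifs with h
  · rw [Finset.sum_eq_single (⟨i, h.1⟩, ⟨j, h.2⟩)]
    · simp
    · intro a _ ha
      by_cases h2 : (a.2 : ℕ) = j
      · rw [if_pos h2, coeff_monomial, if_neg]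
        intro h1
        exact ha (Prod.ext (Fin.ext h1) (Fin.ext h2))
      · rw [if_neg h2, coeff_zero]
    · intro h1
      exact absurd (Finset.mem_univ _) h1
  · refine Finset.sum_eq_zero fun a _ => ?_
    by_cases h2 : (a.2 : ℕ) = j
    · rw [if_pos h2, coeff_monomial, if_neg]
      intro h1
      exact h ⟨h1 ▸ a.1.2, h2 ▸ a.2.2⟩
    · rw [if_neg h2, coeff_zero]

theorem toP_inj (I J : ℕ) (c : Fin I × Fin J → K) (h : toP I J c = 0) : c = 0 := by
  funext a
  have h1 := cf_toP I J c a.1 a.2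
  rw [h, dif_pos ⟨a.1.2, a.2.2⟩] at h1
  simpa [cf] using h1.symm

theorem eval_toP (I J : ℕ) (c : Fin I × Fin J → K) (u v : K) :
    (toP I J c).evalEval u v = ∑ a : Fin I × Fin J, c a * (u ^ (a.1 : ℕ) * v ^ (a.2 : ℕ)) := by
  change (∑ a, monomial (a.2 : ℕ) (monomial (a.1 : ℕ) (c a))).evalEval u v = _
  rw [evalEval_finsetSum]
  refine Finset.sum_congr rfl fun a _ => ?_
  unfold evalEval
  rw [eval_monomial, eval_mul, eval_monomial, eval_pow, eval_C]
  ring

theorem natDegree_toP_lt (I J : ℕ) (hJ : 1 ≤ J) (c : Fin I × Fin J → K) : (toP I J c).natDegree < J := by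
  rw [Nat.lt_iff_add_one_le, ← Nat.le_sub_iff_add_le hJ, natDegree_le_iff_coeff_eq_zero]
  intro j hj
  ext i
  have := cf_toP I J c i j
  unfold cf at this
  rw [this, dif_neg, coeff_zero]
  omega

/-- the linear system -/
theorem solve (f : Polynomial (Polynomial K)) (m n b I : ℕ) (hf1 : ∀ i j, m < i → cf f i j = 0)
    (hn : f.natDegree = n) (hn1 : 1 ≤ n) (hf0 : f ≠ 0) (hI : m ≤ I) (hI2 : m * b < n * I) :
    ∃ s g : Fin I × Fin n → K, toP I n s ≠ 0 ∧ ∃ H : Polynomial (Polynomial K),
      X ^ b * toP I n s - toP I n g = f * H := by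
  classical
  have hf2 : ∀ i j, n < j → cf f i j = 0 := by
    intro i j hj
    have h1 : f.coeff j = 0 := coeff_eq_zero_of_natDegree_lt (by omega)
    unfold cf
    rw [h1, coeff_zero]
  let E := (Fin I × Fin n → K) × (Fin I × Fin n → K) × (Fin (I - m) × Fin b → K)
  let Q : E →ₗ[K] Polynomial (Polynomial K) :=
    (LinearMap.mulLeft K (X ^ b : Polynomial (Polynomial K))) ∘ₗ (toP I n) ∘ₗ LinearMap.fst K _ _ -
      (toP I n) ∘ₗ LinearMap.fst K _ _ ∘ₗ LinearMap.snd K _ _ -
      (LinearMap.mulLeft K f) ∘ₗ (toP (I - m) b) ∘ₗ LinearMap.snd K _ _ ∘ₗ LinearMap.snd K _ _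
  let R : Polynomial (Polynomial K) →ₗ[K] (Fin I × Fin (n + b) → K) :=
    { toFun := fun P a => cf P a.1 a.2
      map_add' := fun P P' => by funext a; simp [cf]
      map_smul' := fun r P => by funext a; simp [cf] }
  have hQ : ∀ x : E, Q x = X ^ b * toP I n x.1 - toP I n x.2.1 - f * toP (I - m) b x.2.2 := fun x => rfl
  have hdim : Module.finrank K (Fin I × Fin (n + b) → K) < Module.finrank K E := by
    simp only [E, Module.finrank_prod, Module.finrank_fintype_fun_eq_card, Fintype.card_prod, Fintype.card_fin]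
    obtain ⟨k, rfl⟩ := Nat.exists_eq_add_of_le hI
    rw [Nat.add_sub_cancel_left]
    nlinarith
  have hker := LinearMap.ker_ne_bot_of_finrank_lt (f := R ∘ₗ Q) hdim
  obtain ⟨⟨s, g, h⟩, hx, hx0⟩ := (Submodule.ne_bot_iff _).1 hker
  have hP0 : Q (s, g, h) = 0 := by
    refine ext_cf fun i j => ?_
    by_cases hij : i < I ∧ j < n + b
    · have h1 : R (Q (s, g, h)) = 0 := hx
      have h2 := congrFun h1 (⟨i, hij.1⟩, ⟨j, hij.2⟩)
      exact h2.trans (by simp [cf])
    · have h3 : cf (X ^ b * toP I n s) i j = 0 := by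
        unfold cf
        rw [coeff_X_pow_mul']
        split_ifs with hb
        · have := cf_toP I n s i (j - b)
          unfold cf at this
          rw [this, dif_neg]
          omega
        · rw [coeff_zero]
      have h4 : cf (toP I n g) i j = 0 := by
        rw [cf_toP, dif_neg]
        omega
      have h5 : cf (f * toP (I - m) b h) i j = 0 := by
        refine cf_mul_zero hf1 hf2 (I := I - m) (J := b) ?_ ?_ i j ?_
        · intro i' j' h6
          rw [cf_toP, dif_neg]
          omega
        · intro i' j' h6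
          rw [cf_toP, dif_neg]
          omega
        · omega
      rw [hQ]
      unfold cf at h3 h4 h5 ⊢
      simp only [coeff_sub, coeff_zero]
      rw [h3, h4, h5]
      simp
  rw [hQ] at hP0
  simp only at hP0
  refine ⟨s, g, ?_, toP (I - m) b h, by linear_combination hP0⟩
  intro hs
  rw [hs, mul_zero, zero_sub] at hP0
  have h6 : toP I n g = -(f * toP (I - m) b h) := by linear_combination (-1 : Polynomial (Polynomial K)) * hP0
  have h7 : toP (I - m) b h = 0 := by
    by_contra h8
    have h9 := natDegree_toP_lt I n hn1 g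
    rw [h6, natDegree_neg, natDegree_mul hf0 h8, hn] at h9
    omega
  have h10 : toP I n g = 0 := by rw [h6, h7, mul_zero, neg_zero]
  apply hx0
  rw [toP_inj I n s hs, toP_inj I n g h10, toP_inj (I - m) b h h7]
  rfl

end

/-! ### Heights -/

section

variable {K : Type} [Field K] [NumberField K]

theorem h_pows (I : ℕ) (hI : 1 ≤ I) : ∃ C : ℝ, ∀ x : K,
    logHeight (fun i : Fin I => x ^ (i : ℕ)) ≤ C + ((I : ℝ) - 1) * logHeight₁ x := by
  obtain ⟨C, hC⟩ := logHeight_eval_le' (K := K) (N := I - 1)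
    (p := fun i : Fin I => (MvPolynomial.X (0 : Fin 2) : MvPolynomial (Fin 2) K) ^ (i : ℕ) *
      MvPolynomial.X 1 ^ (I - 1 - i)) (fun i => by
      have h1 := ((MvPolynomial.isHomogeneous_X K (0 : Fin 2)).pow (i : ℕ)).mul
        ((MvPolynomial.isHomogeneous_X K (1 : Fin 2)).pow (I - 1 - i))
      have h2 : 1 * (i : ℕ) + 1 * (I - 1 - i) = I - 1 := by omega
      rw [h2] at h1
      exact h1)
  refine ⟨C, fun x => ?_⟩
  have h1 := hC ![x, 1]
  rw [← logHeight₁_eq_logHeight, Nat.cast_sub hI] at h1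
  simpa using h1

theorem h_frac (I n b : ℕ) (hI : 1 ≤ I) (hn : 1 ≤ n) (s g : Fin I × Fin n → K) : ∃ C : ℝ, ∀ u v : K,
    (toP I n s).evalEval u v ≠ 0 → v ^ b * (toP I n s).evalEval u v = (toP I n g).evalEval u v →
    b * logHeight₁ v ≤ C + ((I : ℝ) - 1) * logHeight₁ u + ((n : ℝ) - 1) * logHeight₁ v := by
  obtain ⟨C1, hC1⟩ := h_pows (K := K) I hI
  obtain ⟨C2, hC2⟩ := h_pows (K := K) n hn
  let A : Fin 2 × (Fin I × Fin n) → K := fun p => ![g p.2, s p.2] p.1
  refine ⟨totalWeight K * Real.log (Nat.card (Fin I × Fin n)) + logHeight A + C1 + C2,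
    fun u v hS hG => ?_⟩
  have h1 : v ^ b = (toP I n g).evalEval u v / (toP I n s).evalEval u v := by
    rw [eq_div_iff hS]
    exact hG
  have h2 : (b : ℝ) * logHeight₁ v = logHeight (fun j : Fin 2 => ∑ a, A (j, a) * (u ^ (a.1 : ℕ) * v ^ (a.2 : ℕ))) := by
    rw [← logHeight₁_pow, h1, logHeight₁_div_eq_logHeight]
    congr 1
    funext j
    fin_cases j
    · simp [A, eval_toP]
    · simp [A, eval_toP]
  have h3 := logHeight_linearMap_apply_le A (fun a : Fin I × Fin n => u ^ (a.1 : ℕ) * v ^ (a.2 : ℕ))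
  have h4 : logHeight (fun a : Fin I × Fin n => u ^ (a.1 : ℕ) * v ^ (a.2 : ℕ)) =
      logHeight (fun i : Fin I => u ^ (i : ℕ)) + logHeight (fun i : Fin n => v ^ (i : ℕ)) := by
    refine logHeight_fun_mul_eq (x := fun i : Fin I => u ^ (i : ℕ)) ?_ (y := fun i : Fin n => v ^ (i : ℕ)) ?_
    · intro h
      have := congrFun h ⟨0, hI⟩
      simp at this
    · intro h
      have := congrFun h ⟨0, hn⟩
      simp at this
  rw [h2]
  have h5 := hC1 u
  have h6 := hC2 v
  linarith

/-- a nonzero polynomial does not vanish at points of large height -/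
theorem ne_zero_ev {ι : Type} (l : Filter ι) (u : ι → K) (hu : Tendsto (fun k => logHeight₁ (u k)) l atTop)
    (d : Polynomial K) (hd : d ≠ 0) : ∀ᶠ k in l, d.eval (u k) ≠ 0 := by
  classical
  have h1 : ∀ z ∈ d.roots.toFinset, ∀ᶠ k in l, u k ≠ z := by
    intro z _
    filter_upwards [hu.eventually_gt_atTop (logHeight₁ z)] with k hk h
    rw [h] at hk
    exact lt_irrefl _ hk
  have h2 := (Finset.eventually_all _).2 h1
  filter_upwards [h2] with k hk h
  exact hk (u k) (by rw [Multiset.mem_toFinset, mem_roots hd]; exact h) rfl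

theorem half {ι : Type} (l : Filter ι) [l.NeBot] (f : Polynomial (Polynomial K)) (hf : Irreducible f) (m n : ℕ)
    (hf1 : ∀ i j, m < i → cf f i j = 0) (hn : f.natDegree = n) (hn1 : 1 ≤ n) (u v : ι → K)
    (h0 : ∀ᶠ k in l, f.evalEval (u k) (v k) = 0) (hu : Tendsto (fun k => logHeight₁ (u k)) l atTop) (r : ℝ)
    (hr : Tendsto (fun k => logHeight₁ (v k) / logHeight₁ (u k)) l (𝓝 r)) : n * r ≤ m := by
  have hn0 : (0 : ℝ) < n := by exact_mod_cast hn1
  have key : ∀ b : ℕ, ((b : ℝ) - n + 1) * r ≤ m * b / n + m := by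
    intro b
    set I : ℕ := m * b / n + 1 + m with hI
    have hI1 : 1 ≤ I := Nat.le_add_right_of_le (Nat.le_add_left 1 _)
    have hI3 : m ≤ I := Nat.le_add_left m _
    have hI2 : m * b < n * I := by
      have h1 := Nat.lt_div_mul_add (a := m * b) (b := n) hn1
      have h2 : n * I = m * b / n * n + n + n * m := by
        rw [hI]
        ring
      rw [h2]
      omega
    obtain ⟨s, g, hs, H, hH⟩ := solve f m n b I hf1 hn hn1 hf.ne_zero hI3 hI2
    have hsd := natDegree_toP_lt I n hn1 s
    obtain ⟨A, B, d, hd, hAB⟩ := bez f (toP I n s) hf (by omega) hs (by omega)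
    obtain ⟨C0, hC0⟩ := h_frac I n b hI1 hn1 s g
    have h3 : ∀ᶠ k in l, (b : ℝ) * logHeight₁ (v k) ≤
        C0 + ((I : ℝ) - 1) * logHeight₁ (u k) + ((n : ℝ) - 1) * logHeight₁ (v k) := by
      filter_upwards [h0, ne_zero_ev l u hu d hd] with k hk hdk
      refine hC0 _ _ ?_ ?_
      · intro h4
        have h5 := congrArg (fun P : Polynomial (Polynomial K) => P.evalEval (u k) (v k)) hAB
        simp only [evalEval_add, evalEval_mul, evalEval_C] at h5
        rw [hk, h4, mul_zero, mul_zero, add_zero] at h5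
        exact hdk h5.symm
      · have h5 := congrArg (fun P : Polynomial (Polynomial K) => P.evalEval (u k) (v k)) hH
        simp only [evalEval_sub, evalEval_mul, evalEval_pow, evalEval_X] at h5
        rw [hk, zero_mul] at h5
        linear_combination h5
    have h6 : ∀ᶠ k in l, ((b : ℝ) - n + 1) * (logHeight₁ (v k) / logHeight₁ (u k)) ≤
        C0 / logHeight₁ (u k) + ((I : ℝ) - 1) := by
      filter_upwards [h3, hu.eventually_gt_atTop 0] with k hk hk0
      rw [← mul_div_assoc, div_le_iff₀ hk0]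
      have h7 : (C0 / logHeight₁ (u k) + ((I : ℝ) - 1)) * logHeight₁ (u k) =
          C0 + ((I : ℝ) - 1) * logHeight₁ (u k) := by
        field_simp
      rw [h7]
      linarith
    have h7 : Tendsto (fun k => ((b : ℝ) - n + 1) * (logHeight₁ (v k) / logHeight₁ (u k))) l
        (𝓝 (((b : ℝ) - n + 1) * r)) := hr.const_mul _
    have h8 : Tendsto (fun k => C0 / logHeight₁ (u k) + ((I : ℝ) - 1)) l (𝓝 (0 + ((I : ℝ) - 1))) :=
      (hu.const_div_atTop C0).add_const _
    have h9 := le_of_tendsto_of_tendsto h7 h8 h6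
    have h10 : ((m * b / n : ℕ) : ℝ) ≤ m * b / n := by
      have := Nat.cast_div_le (α := ℝ) (m := m * b) (n := n)
      push_cast at this
      exact this
    rw [hI] at h9
    push_cast at h9
    linarith
  by_contra hlt
  rw [not_le] at hlt
  set δ : ℝ := n * r - m with hδ
  have hδ0 : 0 < δ := by rw [hδ]; linarith
  obtain ⟨b, hb⟩ := exists_nat_gt ((n * (m + (n - 1) * r)) / δ)
  rw [div_lt_iff₀ hδ0] at hb
  have h1 := key b
  have h2 : ((b : ℝ) - n + 1) * r * n ≤ (m * b / n + m) * n := mul_le_mul_of_nonneg_right h1 hn0.le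
  have h3 : ((m : ℝ) * b / n + m) * n = m * b + m * n := by
    field_simp
  rw [h3] at h2
  rw [hδ] at hb
  nlinarith

theorem cf_swap (p : Polynomial (Polynomial K)) (i j : ℕ) : cf (Bivariate.swap p) i j = cf p j i := by
  unfold cf
  induction p using Polynomial.induction_on' with
  | add p q hp hq => simp only [map_add, coeff_add, hp, hq]
  | monomial n a =>
    induction a using Polynomial.induction_on' with
    | add a b ha hb => simp only [map_add, coeff_add, ha, hb]
    | monomial m c =>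
      rw [Bivariate.swap_monomial_monomial, coeff_monomial, coeff_monomial]
      by_cases h1 : m = j
      · by_cases h2 : n = i
        · rw [if_pos h1, if_pos h2, coeff_monomial, coeff_monomial, if_pos h1, if_pos h2]
        · rw [if_pos h1, if_neg h2, coeff_monomial, if_neg h2, coeff_zero]
      · by_cases h2 : n = i
        · rw [if_neg h1, if_pos h2, coeff_monomial, if_neg h1, coeff_zero]
        · rw [if_neg h1, if_neg h2, coeff_zero, coeff_zero]

theorem eval_swap (p : Polynomial (Polynomial K)) (x y : K) :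
    (Bivariate.swap p).evalEval x y = p.evalEval y x := by
  have h := Bivariate.aevalAeval_swap x y p
  rw [coe_aevalAeval_eq_evalEval, coe_aevalAeval_eq_evalEval] at h
  exact h

theorem exists_irr {ι : Type} (l : Ultrafilter ι) (u v : ι → K) (F : Polynomial (Polynomial K)) (hF : F ≠ 0)
    (h0 : ∀ᶠ k in (l : Filter ι), F.evalEval (u k) (v k) = 0) :
    ∃ f : Polynomial (Polynomial K), Irreducible f ∧ ∀ᶠ k in (l : Filter ι), f.evalEval (u k) (v k) = 0 := by
  induction F using UniqueFactorizationMonoid.induction_on_prime with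
  | h₁ => exact absurd rfl hF
  | h₂ x hx =>
    obtain ⟨k, hk⟩ := h0.exists
    have h1 : IsUnit (evalEvalRingHom (u k) (v k) x) := hx.map _
    rw [coe_evalEvalRingHom, hk] at h1
    exact absurd h1 not_isUnit_zero
  | h₃ a p ha hp ih =>
    have h1 : ∀ᶠ k in (l : Filter ι), p.evalEval (u k) (v k) = 0 ∨ a.evalEval (u k) (v k) = 0 := by
      filter_upwards [h0] with k hk
      rw [evalEval_mul] at hk
      exact mul_eq_zero.1 hk
    rcases Ultrafilter.eventually_or.1 h1 with h2 | h2
    · exact ⟨p, hp.irreducible, h2⟩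
    · exact ih ha h2

theorem deg_ne {ι : Type} (l : Filter ι) [l.NeBot] (f : Polynomial (Polynomial K)) (hf : f ≠ 0) (u v : ι → K)
    (h0 : ∀ᶠ k in l, f.evalEval (u k) (v k) = 0) (hu : Tendsto (fun k => logHeight₁ (u k)) l atTop) :
    1 ≤ f.natDegree := by
  by_contra hlt
  have h1 : f.natDegree = 0 := by omega
  have h2 := eq_C_of_natDegree_eq_zero h1
  have h3 : f.coeff 0 ≠ 0 := by
    intro h
    rw [h, C_0] at h2
    exact hf h2
  obtain ⟨k, hk1, hk2⟩ := (h0.and (ne_zero_ev l u hu _ h3)).exists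
  rw [h2, evalEval_C] at hk1
  exact hk2 hk1

end

theorem t : S_RATIO := by
  intro K _ _ F hF u v h0 hu r hr
  by_cases hr0 : r = 0
  · exact ⟨0, by rw [hr0]; simp⟩
  have hr1 : 0 ≤ r := ge_of_tendsto' hr fun k => div_nonneg (zero_le_logHeight₁ _) (zero_le_logHeight₁ _)
  have hr2 : 0 < r := lt_of_le_of_ne hr1 (Ne.symm hr0)
  set l : Ultrafilter ℕ := hyperfilter ℕ with hl
  have hle : (l : Filter ℕ) ≤ atTop := Nat.hyperfilter_le_atTop
  have hu' := hu.mono_left hle
  have hr' := hr.mono_left hle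
  have hv' : Tendsto (fun k => logHeight₁ (v k)) l atTop := by
    refine (hr'.pos_mul_atTop hr2 hu').congr' ?_
    filter_upwards [hu'.eventually_gt_atTop 0] with k hk
    rw [div_mul_cancel₀ _ hk.ne']
  obtain ⟨f, hf, hf0⟩ := exists_irr l u v F hF (Eventually.of_forall h0)
  have hn1 := deg_ne (l : Filter ℕ) f hf.ne_zero u v hf0 hu'
  set g : Polynomial (Polynomial K) := Bivariate.swap f with hg
  have hgi : Irreducible g := (MulEquiv.irreducible_iff (Bivariate.swap (R := K)).toMulEquiv).2 hf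
  have hg0 : ∀ᶠ k in (l : Filter ℕ), g.evalEval (v k) (u k) = 0 := by
    filter_upwards [hf0] with k hk
    rw [hg, eval_swap]
    exact hk
  have hm1 := deg_ne (l : Filter ℕ) g hgi.ne_zero v u hg0 hv'
  have hc1 : ∀ i j, g.natDegree < i → cf f i j = 0 := by
    intro i j hi
    rw [← cf_swap]
    have h1 : g.coeff i = 0 := coeff_eq_zero_of_natDegree_lt hi
    unfold cf
    rw [← hg, h1, coeff_zero]
  have hc2 : ∀ i j, f.natDegree < i → cf g i j = 0 := by
    intro i j hi
    rw [hg, cf_swap]
    have h1 : f.coeff i = 0 := coeff_eq_zero_of_natDegree_lt hi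
    unfold cf
    rw [h1, coeff_zero]
  have h1 := half (l : Filter ℕ) f hf g.natDegree f.natDegree hc1 rfl hn1 u v hf0 hu' r hr'
  have h2 := half (l : Filter ℕ) g hgi f.natDegree g.natDegree hc2 rfl hm1 v u hg0 hv' r⁻¹ (by
    refine (hr'.inv₀ hr0).congr fun k => ?_
    rw [inv_div])
  have hn0 : (0 : ℝ) < f.natDegree := by exact_mod_cast hn1
  refine ⟨(g.natDegree : ℚ) / (f.natDegree : ℚ), ?_⟩
  push_cast
  rw [eq_div_iff hn0.ne']
  rw [← div_eq_mul_inv, div_le_iff₀ hr2] at h2
  linarith

end Pool.Agent.H55.MZ.RATIO
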