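import Pool.Agent.H55.MZ.Stm

/-!
# Project MZ: stub RED (recurrence at a place of good reduction)
-/

set_option autoImplicit false

open MvPolynomial Filter Topology Height

namespace Pool.Agent.H55.MZ

/-- RED with the hypothesis that the ideal is homogeneous. -/
def S_RED_H : Prop := ∀ (K : Type) [Field K] (n : ℕ) (I : Ideal (Poly K n)) (_ : Homog I) (d : ℕ)
  (Φ : Fin (n + 1) → Fin (n + 1) → Poly K n) (_ : IsAuto I d Φ)
  (L : Type) [NontriviallyNormedField L] [IsUltrametricDist L] [ProperSpace L] (σ : K →+* L) (_ : GoodAt I Φ σ)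
  (P z : ℕ → Fin (n + 1) → K) (_ : ∀ k, Pt I (P k)) (_ : ∀ k i j, eval (P k) (Φ i j) = P (k + 1) i * z k j)
  (r : ℝ) (_ : 0 < r),
  ∃ N : ℕ, 1 ≤ N ∧ ∀ m : ℕ, ∃ c : K, c ≠ 0 ∧ ∀ i, ‖σ (c * P (N * m) i) - σ (P 0 i)‖ < r

namespace RED

section

variable {K : Type} [Field K] {L : Type} [NontriviallyNormedField L] {n : ℕ} (σ : K →+* L)

theorem nsub [IsUltrametricDist L] (a b : L) : ‖a - b‖ ≤ max ‖a‖ ‖b‖ := by
  have := IsUltrametricDist.norm_add_le_max a (-b)
  rwa [norm_neg, ← sub_eq_add_neg] at this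

/-- norm one -/
def Un (x : Fin (n + 1) → K) : Prop := (∀ i, ‖σ (x i)‖ ≤ 1) ∧ ∃ i, ‖σ (x i)‖ = 1

/-- close representatives of norm one -/
def Rl (s : ℝ) (x x' : Fin (n + 1) → K) : Prop :=
  ∃ c c' : K, Un σ (fun i => c * x i) ∧ Un σ (fun i => c' * x' i) ∧ ∀ i, ‖σ (c * x i) - σ (c' * x' i)‖ < s

theorem un_exists (x : Fin (n + 1) → K) (hx : x ≠ 0) : ∃ c : K, Un σ (fun i => c * x i) := by
  obtain ⟨l, _, hl⟩ := Finset.exists_max_image Finset.univ (fun i => ‖σ (x i)‖) ⟨0, Finset.mem_univ _⟩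
  obtain ⟨j, hj⟩ : ∃ j, x j ≠ 0 := by
    by_contra h
    push Not at h
    exact hx (funext h)
  have h1 : 0 < ‖σ (x j)‖ := norm_pos_iff.2 ((map_ne_zero σ).2 hj)
  have h2 : 0 < ‖σ (x l)‖ := lt_of_lt_of_le h1 (hl j (Finset.mem_univ _))
  have h3 : x l ≠ 0 := by
    intro h
    rw [h, map_zero, norm_zero] at h2
    exact lt_irrefl _ h2
  refine ⟨(x l)⁻¹, fun i => ?_, l, ?_⟩
  · rw [map_mul, map_inv₀, norm_mul, norm_inv, inv_mul_le_iff₀ h2, mul_one]
    exact hl i (Finset.mem_univ _)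
  · change ‖σ ((x l)⁻¹ * x l)‖ = 1
    rw [inv_mul_cancel₀ h3, map_one, norm_one]

theorem un_ne {x : Fin (n + 1) → K} {c : K} (h : Un σ (fun i => c * x i)) : c ≠ 0 := by
  rintro rfl
  obtain ⟨i, hi⟩ := h.2
  simp at hi

theorem un_le {x : Fin (n + 1) → K} {c c' : K} (h : Un σ (fun i => c * x i)) (h' : Un σ (fun i => c' * x i)) :
    ‖σ c'‖ ≤ ‖σ c‖ := by
  obtain ⟨i, hi⟩ := h.2
  have h1 := h'.1 i
  simp only [map_mul, norm_mul] at hi h1
  have h2 : 0 < ‖σ (x i)‖ := by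
    rcases eq_or_lt_of_le (norm_nonneg (σ (x i))) with h0 | h0
    · rw [← h0, mul_zero] at hi
      exact absurd hi (by norm_num)
    · exact h0
  rw [← hi] at h1
  exact le_of_mul_le_mul_right h1 h2

theorem un_eq {x : Fin (n + 1) → K} {c c' : K} (h : Un σ (fun i => c * x i)) (h' : Un σ (fun i => c' * x i)) :
    ‖σ c‖ = ‖σ c'‖ := le_antisymm (un_le σ h' h) (un_le σ h h')

theorem un_scale {x : Fin (n + 1) → K} {a : K} (ha : ‖σ a‖ = 1) (h : Un σ x) : Un σ (fun i => a * x i) := by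
  refine ⟨fun i => ?_, ?_⟩
  · rw [map_mul, norm_mul, ha, one_mul]
    exact h.1 i
  · obtain ⟨i, hi⟩ := h.2
    exact ⟨i, by rw [map_mul, norm_mul, ha, one_mul]; exact hi⟩

theorem rl_symm {s : ℝ} {x x' : Fin (n + 1) → K} (h : Rl σ s x x') : Rl σ s x' x := by
  obtain ⟨c, c', h1, h2, h3⟩ := h
  exact ⟨c', c, h2, h1, fun i => by rw [norm_sub_rev]; exact h3 i⟩

theorem rl_refl {s : ℝ} (hs : 0 < s) {x : Fin (n + 1) → K} (hx : x ≠ 0) : Rl σ s x x := by
  obtain ⟨c, hc⟩ := un_exists σ x hx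
  exact ⟨c, c, hc, hc, fun i => by rw [sub_self, norm_zero]; exact hs⟩

theorem rl_trans [IsUltrametricDist L] {s : ℝ} {x y w : Fin (n + 1) → K} (h : Rl σ s x y) (h' : Rl σ s y w) :
    Rl σ s x w := by
  obtain ⟨c, c', h1, h2, h3⟩ := h
  obtain ⟨b, b', k1, k2, k3⟩ := h'
  have hc' : c' ≠ 0 := un_ne σ h2
  have ha : ‖σ (b / c')‖ = 1 := by
    rw [map_div₀, norm_div, un_eq σ k1 h2, div_self (norm_ne_zero_iff.2 ((map_ne_zero σ).2 hc'))]
  refine ⟨b / c' * c, b', ?_, k2, fun i => ?_⟩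
  · have := un_scale σ ha h1
    simpa [mul_assoc] using this
  · have e1 : σ (b / c' * c * x i) - σ (b' * w i) =
        σ (b / c') * (σ (c * x i) - σ (c' * y i)) + (σ (b * y i) - σ (b' * w i)) := by
      have : σ (b / c') * σ (c' * y i) = σ (b * y i) := by
        rw [← map_mul, ← mul_assoc, div_mul_cancel₀ b hc']
      rw [mul_sub, this, ← map_mul, ← mul_assoc]
      ring
    rw [e1]
    refine lt_of_le_of_lt (IsUltrametricDist.norm_add_le_max _ _) (max_lt ?_ (k3 i))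
    rw [norm_mul, ha, one_mul]
    exact h3 i

theorem rl_of_smul {s : ℝ} {x x' : Fin (n + 1) → K} {a a' : K}
    (h : Rl σ s (fun i => a * x i) (fun i => a' * x' i)) : Rl σ s x x' := by
  obtain ⟨c, c', h1, h2, h3⟩ := h
  refine ⟨c * a, c' * a', ?_, ?_, ?_⟩
  · simpa [mul_assoc] using h1
  · simpa [mul_assoc] using h2
  · intro i
    have := h3 i
    simpa [mul_assoc] using this

/-- the pairs of close integral elements -/
def SR [IsUltrametricDist L] (s : ℝ) (hs : 0 < s) : Subring (L × L) where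
  carrier := {q | ‖q.1‖ ≤ 1 ∧ ‖q.2‖ ≤ 1 ∧ ‖q.1 - q.2‖ < s}
  mul_mem' := by
    rintro ⟨a, b⟩ ⟨a', b'⟩ ⟨h1, h2, h3⟩ ⟨k1, k2, k3⟩
    simp only [Set.mem_ofPred_eq, Prod.mk_mul_mk] at *
    refine ⟨?_, ?_, ?_⟩
    · rw [norm_mul]; exact mul_le_one₀ h1 (norm_nonneg _) k1
    · rw [norm_mul]; exact mul_le_one₀ h2 (norm_nonneg _) k2
    · have e : a * a' - b * b' = a * (a' - b') + (a - b) * b' := by ring
      rw [e]
      refine lt_of_le_of_lt (IsUltrametricDist.norm_add_le_max _ _) (max_lt ?_ ?_)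
      · rw [norm_mul]
        exact lt_of_le_of_lt (mul_le_of_le_one_left (norm_nonneg _) h1) k3
      · rw [norm_mul]
        exact lt_of_le_of_lt (mul_le_of_le_one_right (norm_nonneg _) k2) h3
  one_mem' := by
    simp only [Set.mem_ofPred_eq, Prod.fst_one, Prod.snd_one, norm_one, sub_self, norm_zero]
    exact ⟨le_refl _, le_refl _, hs⟩
  add_mem' := by
    rintro ⟨a, b⟩ ⟨a', b'⟩ ⟨h1, h2, h3⟩ ⟨k1, k2, k3⟩
    simp only [Set.mem_ofPred_eq, Prod.mk_add_mk] at *
    refine ⟨(IsUltrametricDist.norm_add_le_max _ _).trans (max_le h1 k1),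
      (IsUltrametricDist.norm_add_le_max _ _).trans (max_le h2 k2), ?_⟩
    have e : a + a' - (b + b') = (a - b) + (a' - b') := by ring
    rw [e]
    exact lt_of_le_of_lt (IsUltrametricDist.norm_add_le_max _ _) (max_lt h3 k3)
  zero_mem' := by
    simp only [Set.mem_ofPred_eq, Prod.fst_zero, Prod.snd_zero, norm_zero, sub_self]
    exact ⟨zero_le_one, zero_le_one, hs⟩
  neg_mem' := by
    rintro ⟨a, b⟩ ⟨h1, h2, h3⟩
    simp only [Set.mem_ofPred_eq, Prod.neg_mk, norm_neg] at *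
    refine ⟨h1, h2, ?_⟩
    have e : -a - -b = -(a - b) := by ring
    rw [e, norm_neg]
    exact h3

theorem eval_close [IsUltrametricDist L] {s : ℝ} (hs : 0 < s) (p : Poly K n) (hp : ∀ e, ‖σ (p.coeff e)‖ ≤ 1)
    {u u' : Fin (n + 1) → K} (hu : ∀ i, ‖σ (u i)‖ ≤ 1) (hu' : ∀ i, ‖σ (u' i)‖ ≤ 1)
    (h : ∀ i, ‖σ (u i) - σ (u' i)‖ < s) :
    ‖σ (eval u p)‖ ≤ 1 ∧ ‖σ (eval u' p)‖ ≤ 1 ∧ ‖σ (eval u p) - σ (eval u' p)‖ < s := by
  have key : ((σ (eval u p), σ (eval u' p)) : L × L) ∈ SR (L := L) s hs := by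
    have e : ((σ (eval u p), σ (eval u' p)) : L × L) =
        ∑ d ∈ p.support, ((σ (p.coeff d), σ (p.coeff d)) : L × L) * ∏ i, ((σ (u i), σ (u' i)) : L × L) ^ d i := by
      refine Prod.ext ?_ ?_
      · simp only [Prod.fst_sum, Prod.fst_mul, Prod.fst_prod, Prod.pow_fst]
        rw [eval_eq', map_sum]
        refine Finset.sum_congr rfl fun d _ => ?_
        rw [map_mul, map_prod]
        simp only [map_pow]
      · simp only [Prod.snd_sum, Prod.snd_mul, Prod.snd_prod, Prod.pow_snd]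
        rw [eval_eq', map_sum]
        refine Finset.sum_congr rfl fun d _ => ?_
        rw [map_mul, map_prod]
        simp only [map_pow]
    rw [e]
    refine Subring.sum_mem _ fun d _ => Subring.mul_mem _ ?_ (Subring.prod_mem _ fun i _ => Subring.pow_mem _ ?_ _)
    · exact ⟨hp d, hp d, by simpa using hs⟩
    · exact ⟨hu i, hu' i, h i⟩
  exact key

theorem eval_smul_hom {p : Poly K n} {d : ℕ} (hp : p.IsHomogeneous d) (c : K) (x : Fin (n + 1) → K) :
    eval (fun i => c * x i) p = c ^ d * eval x p := by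
  rw [eval_eq', eval_eq', Finset.mul_sum]
  refine Finset.sum_congr rfl fun e he => ?_
  have h1 : ∑ i, e i = d := by
    have := hp (mem_support_iff.1 he)
    rw [← this, Finsupp.weight_apply, Finsupp.sum_fintype _ _ (by simp)]
    simp
  simp only [mul_pow, Finset.prod_mul_distrib]
  rw [Finset.prod_pow_eq_pow_sum, h1]
  ring

theorem pt_smul {I : Ideal (Poly K n)} (hI : Homog I) {x : Fin (n + 1) → K} (hx : Pt I x) {c : K} (hc : c ≠ 0) :
    Pt I (fun i => c * x i) := by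
  refine ⟨?_, fun g hg => ?_⟩
  · intro h
    apply hx.1
    funext i
    have := congrFun h i
    simpa [hc] using this
  · have h1 : g = ∑ s ∈ Finset.range (g.totalDegree + 1), homogeneousComponent s g :=
      (sum_homogeneousComponent g).symm
    rw [h1, map_sum]
    refine Finset.sum_eq_zero fun s _ => ?_
    rw [eval_smul_hom (homogeneousComponent_isHomogeneous s g), hx.2 _ (hI g hg s), mul_zero]

/-- factors of a matrix of norm one and rank one -/
theorem factor {m : Fin (n + 1) → Fin (n + 1) → K} {y z : Fin (n + 1) → K} (hm : ∀ i j, m i j = y i * z j)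
    (h1 : ∀ i j, ‖σ (m i j)‖ ≤ 1) (h2 : ∃ i j, ‖σ (m i j)‖ = 1) :
    ∃ b : K, b ≠ 0 ∧ Un σ (fun j => b * z j) ∧ Un σ (fun i => b⁻¹ * y i) := by
  obtain ⟨i0, j0, h0⟩ := h2
  have hz : z ≠ 0 := by
    rintro rfl
    rw [hm] at h0
    simp at h0
  obtain ⟨b, hb⟩ := un_exists σ z hz
  have hb0 : b ≠ 0 := un_ne σ hb
  have hfac : ∀ i j, ‖σ (m i j)‖ = ‖σ (b⁻¹ * y i)‖ * ‖σ (b * z j)‖ := by
    intro i j
    rw [← norm_mul, ← map_mul, hm]
    congr 2
    field_simp
  obtain ⟨j1, hj1⟩ := hb.2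
  simp only at hj1
  refine ⟨b, hb0, hb, fun i => ?_, i0, ?_⟩
  · have := hfac i j1
    rw [hj1, mul_one] at this
    rw [← this]
    exact h1 i j1
  · have k1 : ‖σ (b⁻¹ * y i0)‖ ≤ 1 := by
      have := hfac i0 j1
      rw [hj1, mul_one] at this
      rw [← this]
      exact h1 i0 j1
    refine le_antisymm k1 ?_
    have k2 := hfac i0 j0
    rw [h0] at k2
    have k3 : ‖σ (b * z j0)‖ ≤ 1 := hb.1 j0
    calc (1 : ℝ) = ‖σ (b⁻¹ * y i0)‖ * ‖σ (b * z j0)‖ := k2
      _ ≤ ‖σ (b⁻¹ * y i0)‖ * 1 := mul_le_mul_of_nonneg_left k3 (norm_nonneg _)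
      _ = _ := mul_one _

/-- closeness of the factors -/
theorem close_factor [IsUltrametricDist L] {s : ℝ} (hs1 : s < 1) {η ζ η' ζ' : Fin (n + 1) → K} (h1 : Un σ η)
    (h2 : Un σ ζ) (h : ∀ i j, ‖σ (η i * ζ j) - σ (η' i * ζ' j)‖ < s) : Rl σ s η η' := by
  obtain ⟨j, hj⟩ := h2.2
  have hv : Un σ (fun i => ζ j * η i) := un_scale σ hj h1
  have hclose : ∀ i, ‖σ (ζ j * η i) - σ (ζ' j * η' i)‖ < s := by
    intro i
    have := h i j
    rwa [mul_comm (η i), mul_comm (η' i)] at this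
  refine ⟨ζ j, ζ' j, hv, ⟨fun i => ?_, ?_⟩, hclose⟩
  · have e : σ (ζ' j * η' i) = σ (ζ j * η i) - (σ (ζ j * η i) - σ (ζ' j * η' i)) := by ring
    rw [e]
    exact (nsub _ _).trans (max_le (hv.1 i) ((hclose i).le.trans hs1.le))
  · obtain ⟨i, hi⟩ := hv.2
    refine ⟨i, ?_⟩
    simp only at hi
    have h3 : ‖σ (ζ j * η i) - σ (ζ' j * η' i)‖ < ‖σ (ζ j * η i)‖ := by
      rw [hi]
      exact (hclose i).trans hs1
    have h5 : ‖σ (ζ' j * η' i)‖ = ‖σ (ζ j * η i)‖ := by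
      rcases lt_trichotomy ‖σ (ζ' j * η' i)‖ ‖σ (ζ j * η i)‖ with hlt | heq | hgt
      · exfalso
        have e : σ (ζ j * η i) = σ (ζ' j * η' i) + (σ (ζ j * η i) - σ (ζ' j * η' i)) := by ring
        have := IsUltrametricDist.norm_add_le_max (σ (ζ' j * η' i)) (σ (ζ j * η i) - σ (ζ' j * η' i))
        rw [← e] at this
        exact absurd this (not_le.2 (max_lt hlt h3))
      · exact heq
      · exfalso
        have e : σ (ζ' j * η' i) = σ (ζ j * η i) - (σ (ζ j * η i) - σ (ζ' j * η' i)) := by ring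
        have := nsub (σ (ζ j * η i)) (σ (ζ j * η i) - σ (ζ' j * η' i))
        rw [← e] at this
        exact absurd this (not_le.2 (max_lt hgt (h3.trans hgt)))
    rw [h5, hi]

end

theorem t : S_RED_H := by
  intro K _ n I hI d Φ hA L _ _ _ σ hG P z hP hPz r hr
  -- the step
  have hunit : ∀ x : Fin (n + 1) → K, Pt I x → ∀ c : K, Un σ (fun i => c * x i) →
      (∀ i j, ‖σ (c ^ d * eval x (Φ i j))‖ ≤ 1) ∧ ∃ i j, ‖σ (c ^ d * eval x (Φ i j))‖ = 1 := by
    intro x hx c hc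
    have h1 := pt_smul hI hx (un_ne σ hc)
    refine ⟨fun i j => ?_, ?_⟩
    · have := (eval_close σ one_pos (Φ i j) (hG.1 i j) hc.1 hc.1 (fun i => by simp)).1
      rwa [eval_smul_hom (hA.hom i j)] at this
    · obtain ⟨i, j, hij⟩ := hG.2 _ h1 hc.1 hc.2
      rw [eval_smul_hom (hA.hom i j)] at hij
      exact ⟨i, j, hij⟩
  have hstep : ∀ s : ℝ, 0 < s → s < 1 → ∀ x x' y z y' z' : Fin (n + 1) → K, Pt I x → Pt I x' →
      (∀ i j, eval x (Φ i j) = y i * z j) → (∀ i j, eval x' (Φ i j) = y' i * z' j) → Rl σ s x x' →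
      Rl σ s y y' ∧ Rl σ s z z' := by
    intro s hs hs1 x x' y z y' z' hx hx' hy hy' hR
    obtain ⟨c, c', h1, h2, h3⟩ := hR
    obtain ⟨m1, m2⟩ := hunit x hx c h1
    obtain ⟨m1', m2'⟩ := hunit x' hx' c' h2
    obtain ⟨b, hb0, hb1, hb2⟩ := factor σ (m := fun i j => c ^ d * eval x (Φ i j)) (y := fun i => c ^ d * y i) (z := z)
      (fun i j => by rw [hy]; ring) m1 m2
    obtain ⟨b', hb0', hb1', hb2'⟩ := factor σ (m := fun i j => c' ^ d * eval x' (Φ i j))
      (y := fun i => c' ^ d * y' i) (z := z') (fun i j => by rw [hy']; ring) m1' m2'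
    have hcl : ∀ i j, ‖σ (b⁻¹ * (c ^ d * y i) * (b * z j)) - σ (b'⁻¹ * (c' ^ d * y' i) * (b' * z' j))‖ < s := by
      intro i j
      have e1 : b⁻¹ * (c ^ d * y i) * (b * z j) = eval (fun i => c * x i) (Φ i j) := by
        rw [eval_smul_hom (hA.hom i j), hy]
        field_simp
      have e2 : b'⁻¹ * (c' ^ d * y' i) * (b' * z' j) = eval (fun i => c' * x' i) (Φ i j) := by
        rw [eval_smul_hom (hA.hom i j), hy']
        field_simp
      rw [e1, e2]
      exact (eval_close σ hs (Φ i j) (hG.1 i j) h1.1 h2.1 h3).2.2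
    constructor
    · have := close_factor σ hs1 hb2 hb1 hcl
      exact rl_of_smul σ (rl_of_smul σ this)
    · have := close_factor σ hs1 hb1 hb2 (η' := fun j => b' * z' j) (ζ' := fun i => b'⁻¹ * (c' ^ d * y' i))
        (fun j i => by
          have := hcl i j
          rwa [mul_comm (b * z j), mul_comm (b' * z' j)])
      exact rl_of_smul σ this
  -- the second factor
  have hz0 : ∀ k, ∃ j, z k j ≠ 0 := by
    intro k
    obtain ⟨c, hc⟩ := un_exists σ (P k) (hP k).1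
    obtain ⟨_, i, j, hij⟩ := hunit (P k) (hP k) c hc
    refine ⟨j, fun h => ?_⟩
    rw [hPz, h, mul_zero, mul_zero, map_zero, norm_zero] at hij
    exact absurd hij (by norm_num)
  have hprop : ∀ k, ∃ a : K, ∀ l, z (k + 1) l = a * P k l := by
    intro k
    obtain ⟨j, hj⟩ := hz0 k
    obtain ⟨a, ha⟩ : ∃ a, P (k + 2) a ≠ 0 := by
      by_contra h
      push Not at h
      exact (hP (k + 2)).1 (funext h)
    have h1 : ∀ l m, P k m * z (k + 1) l = P k l * z (k + 1) m := by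
      intro l m
      have h2 := (hP k).2 _ (hA.inv_col j a l m)
      have h3 : ∀ l, eval (P k) (bind₁ (fun i => Φ i j) (Φ a l)) = z k j ^ d * (P (k + 2) a * z (k + 1) l) := by
        intro l
        have e1 : eval (P k) (bind₁ (fun i => Φ i j) (Φ a l)) = eval (fun i => eval (P k) (Φ i j)) (Φ a l) := by
          have := eval₂Hom_bind₁ (RingHom.id K) (P k) (fun i => Φ i j) (Φ a l)
          exact this
        have e2 : (fun i => eval (P k) (Φ i j)) = fun i => z k j * P (k + 1) i := by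
          funext i
          rw [hPz, mul_comm]
        rw [e1, e2, eval_smul_hom (hA.hom a l), hPz (k + 1) a l]
      rw [map_sub, map_mul, map_mul, eval_X, eval_X, h3, h3, sub_eq_zero] at h2
      have h4 : z k j ^ d * P (k + 2) a ≠ 0 := mul_ne_zero (pow_ne_zero _ hj) ha
      apply mul_left_cancel₀ h4
      linear_combination h2
    obtain ⟨m, hm⟩ : ∃ m, P k m ≠ 0 := by
      by_contra h
      push Not at h
      exact (hP k).1 (funext h)
    refine ⟨z (k + 1) m / P k m, fun l => ?_⟩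
    have := h1 l m
    field_simp
    linear_combination this
  -- the scale
  obtain ⟨c0, hc0⟩ := un_exists σ (P 0) (hP 0).1
  have hc00 : 0 < ‖σ c0‖ := norm_pos_iff.2 ((map_ne_zero σ).2 (un_ne σ hc0))
  obtain ⟨s, hs⟩ : ∃ s, s = min (r * ‖σ c0‖) (1 / 2) := ⟨_, rfl⟩
  have hs0 : 0 < s := by rw [hs]; exact lt_min (by positivity) (by norm_num)
  have hs1 : s < 1 := by rw [hs]; exact lt_of_le_of_lt (min_le_right _ _) (by norm_num)
  -- pigeonhole
  have hpig : ∃ i k, i < k ∧ Rl σ s (P i) (P k) := by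
    choose c hc using fun k => un_exists σ (P k) (hP k).1
    have hK : IsCompact (Metric.closedBall (0 : Fin (n + 1) → L) 1) := isCompact_closedBall _ _
    obtain ⟨a, _, φ, hφ, hlim⟩ := hK.tendsto_subseq (x := fun k => (fun i => σ (c k * P k i) : Fin (n + 1) → L))
      (fun k => by
        rw [mem_closedBall_zero_iff, pi_norm_le_iff_of_nonneg zero_le_one]
        exact (hc k).1)
    rw [Metric.tendsto_atTop] at hlim
    obtain ⟨N, hN⟩ := hlim (s / 2) (by linarith)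
    refine ⟨φ N, φ (N + 1), hφ (Nat.lt_succ_self N), c (φ N), c (φ (N + 1)), hc _, hc _, fun i => ?_⟩
    have h1 := hN N le_rfl
    have h2 := hN (N + 1) (Nat.le_succ N)
    have h3 : dist ((fun k => (fun i => σ (c k * P k i) : Fin (n + 1) → L)) (φ N))
        ((fun k => (fun i => σ (c k * P k i) : Fin (n + 1) → L)) (φ (N + 1))) < s := by
      refine lt_of_le_of_lt (dist_triangle_right _ _ a) ?_
      have h1' := h1
      have h2' := h2
      simp only [Function.comp] at h1' h2'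
      linarith
    rw [dist_eq_norm] at h3
    exact lt_of_le_of_lt (norm_le_pi_norm (((fun k => (fun i => σ (c k * P k i) : Fin (n + 1) → L)) (φ N)) -
      ((fun k => (fun i => σ (c k * P k i) : Fin (n + 1) → L)) (φ (N + 1)))) i) h3
  have hup : ∀ i k, Rl σ s (P i) (P k) → Rl σ s (P (i + 1)) (P (k + 1)) := by
    intro i k h
    exact (hstep s hs0 hs1 _ _ _ _ _ _ (hP i) (hP k) (hPz i) (hPz k) h).1
  have hdown : ∀ i k, Rl σ s (P (i + 1)) (P (k + 1)) → Rl σ s (P i) (P k) := by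
    intro i k h
    have h1 := (hstep s hs0 hs1 _ _ _ _ _ _ (hP (i + 1)) (hP (k + 1)) (hPz (i + 1)) (hPz (k + 1)) h).2
    obtain ⟨a, ha⟩ := hprop i
    obtain ⟨a', ha'⟩ := hprop k
    rw [funext ha, funext ha'] at h1
    exact rl_of_smul σ h1
  obtain ⟨i, k, hik, hR⟩ := hpig
  have hdn : ∀ i k, i ≤ k → Rl σ s (P i) (P k) → Rl σ s (P 0) (P (k - i)) := by
    intro i
    induction i with
    | zero => intro k _ h; simpa using h
    | succ i ih =>
      intro k hk h
      obtain ⟨k', rfl⟩ : ∃ k', k = k' + 1 := ⟨k - 1, by omega⟩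
      have := ih k' (by omega) (hdown i k' h)
      rwa [Nat.add_sub_add_right]
  have hN0 : Rl σ s (P 0) (P (k - i)) := hdn i k hik.le hR
  obtain ⟨N, hN⟩ : ∃ N, N = k - i := ⟨_, rfl⟩
  rw [← hN] at hN0
  have hshift : ∀ j, Rl σ s (P j) (P (N + j)) := by
    intro j
    induction j with
    | zero => exact hN0
    | succ j ih => exact hup j (N + j) ih
  have hall : ∀ m, Rl σ s (P 0) (P (N * m)) := by
    intro m
    induction m with
    | zero => exact rl_refl σ hs0 (hP 0).1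
    | succ m ih =>
      have h1 := hshift (N * m)
      have h2 : N + N * m = N * (m + 1) := by ring
      rw [h2] at h1
      exact rl_trans σ ih h1
  refine ⟨N, by omega, fun m => ?_⟩
  obtain ⟨c, c', h1, h2, h3⟩ := hall m
  have hc : c ≠ 0 := un_ne σ h1
  have hc' : c' ≠ 0 := un_ne σ h2
  have hcn : ‖σ c‖ = ‖σ c0‖ := un_eq σ h1 hc0
  refine ⟨c' / c, div_ne_zero hc' hc, fun i => ?_⟩
  have e1 : σ (c' / c * P (N * m) i) - σ (P 0 i) = (σ c)⁻¹ * (σ (c' * P (N * m) i) - σ (c * P 0 i)) := by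
    have hσc : σ c ≠ 0 := (map_ne_zero σ).2 hc
    rw [map_mul, map_mul, map_mul, map_div₀]
    field_simp
  rw [e1, norm_mul, norm_inv, hcn, inv_mul_lt_iff₀ hc00, norm_sub_rev]
  refine lt_of_lt_of_le (h3 i) ?_
  rw [hs, mul_comm]
  exact min_le_left _ _

end RED

end Pool.Agent.H55.MZ
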