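import Pool.Agent.H55.MZ.Stm

/-!
# Project MZ: basic lemmas
-/

set_option autoImplicit false

open MvPolynomial Filter Topology Height

namespace Pool.Agent.H55.MZ

section Basic

variable {K : Type} [Field K] {n : ℕ}

/-- evaluation of homogeneous polynomials at multiples -/
lemma eval_smul_hom {g : Poly K n} {s : ℕ} (hg : g.IsHomogeneous s) (c : K) (x : Fin (n + 1) → K) :
    eval (c • x) g = c ^ s * eval x g := by
  rw [eval_eq, eval_eq, Finset.mul_sum]
  refine Finset.sum_congr rfl fun e he => ?_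
  have h1 : e.degree = s := by
    by_contra hcon
    exact (mem_support_iff.1 he) (hg.coeff_eq_zero hcon)
  have h2 : ∏ i ∈ e.support, (c • x) i ^ e i = c ^ s * ∏ i ∈ e.support, x i ^ e i := by
    simp only [Pi.smul_apply, smul_eq_mul, mul_pow, Finset.prod_mul_distrib]
    congr 1
    rw [Finset.prod_pow_eq_pow_sum]
    congr 1
  rw [h2]; ring

lemma eval_smul_sum (g : Poly K n) (c : K) (x : Fin (n + 1) → K) :
    eval (c • x) g = ∑ s ∈ Finset.range (g.totalDegree + 1), c ^ s * eval x (homogeneousComponent s g) := by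
  conv_lhs => rw [← sum_homogeneousComponent g]
  rw [map_sum]
  exact Finset.sum_congr rfl fun s _ => eval_smul_hom (homogeneousComponent_isHomogeneous s g) c x

/-- if `g` vanishes at all multiples of `x` then so do its components -/
lemma comp_zero [Infinite K] {g : Poly K n} {x : Fin (n + 1) → K} (h : ∀ c : K, c ≠ 0 → eval (c • x) g = 0)
    (s : ℕ) : eval x (homogeneousComponent s g) = 0 := by
  classical
  set p : Polynomial K := ∑ s ∈ Finset.range (g.totalDegree + 1),
    Polynomial.C (eval x (homogeneousComponent s g)) * Polynomial.X ^ s with hp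
  have hp0 : p = 0 := by
    apply Polynomial.eq_zero_of_infinite_isRoot
    refine Set.Infinite.mono (s := {c : K | c ≠ 0}) ?_ ?_
    · intro c hc
      have := h c hc
      rw [eval_smul_sum] at this
      show Polynomial.eval c p = 0
      rw [hp, Polynomial.eval_finsetSum]
      rw [← this]
      refine Finset.sum_congr rfl fun s _ => ?_
      rw [Polynomial.eval_mul, Polynomial.eval_C, Polynomial.eval_pow, Polynomial.eval_X]
      ring
    · have : ({c : K | c ≠ 0} : Set K) = {0}ᶜ := by ext c; simp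
      rw [this]
      exact (Set.finite_singleton _).infinite_compl
  by_cases hs : s ∈ Finset.range (g.totalDegree + 1)
  · have h1 := congrArg (fun q => Polynomial.coeff q s) hp0
    simp only [hp, Polynomial.finsetSum_coeff, Polynomial.coeff_C_mul, Polynomial.coeff_X_pow,
      Polynomial.coeff_zero] at h1
    rw [Finset.sum_eq_single s] at h1
    · simpa using h1
    · intro b _ hb; rw [if_neg (Ne.symm hb)]; simp
    · intro h2; exact absurd hs h2
  · rw [homogeneousComponent_eq_zero]
    · simp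
    · simp only [Finset.mem_range] at hs; omega

lemma Pt.smul {I : Ideal (Poly K n)} (hI : Homog I) {x : Fin (n + 1) → K} (hx : Pt I x) {c : K} (hc : c ≠ 0) :
    Pt I (c • x) := by
  refine ⟨smul_ne_zero hc hx.1, fun g hg => ?_⟩
  rw [eval_smul_sum]
  refine Finset.sum_eq_zero fun s _ => ?_
  rw [hx.2 _ (hI g hg s), mul_zero]

/-- two vectors are proportional (nonzero factor) -/
def Par (x y : Fin (n + 1) → K) : Prop := ∃ c : K, c ≠ 0 ∧ y = c • x

lemma Par.refl (x : Fin (n + 1) → K) : Par x x := ⟨1, one_ne_zero, by simp⟩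

lemma Par.symm {x y : Fin (n + 1) → K} (h : Par x y) : Par y x := by
  obtain ⟨c, hc, rfl⟩ := h
  exact ⟨c⁻¹, inv_ne_zero hc, by rw [smul_smul, inv_mul_cancel₀ hc, one_smul]⟩

lemma Par.trans {x y z : Fin (n + 1) → K} (h : Par x y) (h' : Par y z) : Par x z := by
  obtain ⟨c, hc, rfl⟩ := h
  obtain ⟨e, he, rfl⟩ := h'
  exact ⟨e * c, mul_ne_zero he hc, by rw [smul_smul]⟩

lemma par_of_minors {x y : Fin (n + 1) → K} (hx : x ≠ 0) (hy : y ≠ 0)
    (h : ∀ l m, x m * y l = x l * y m) : Par x y := by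
  obtain ⟨m, hm⟩ : ∃ m, x m ≠ 0 := by
    by_contra hcon
    push Not at hcon
    exact hx (funext hcon)
  refine ⟨y m / x m, ?_, ?_⟩
  · intro h0
    apply hy
    funext l
    have hym : y m = 0 := by
      rcases div_eq_zero_iff.1 h0 with h1 | h1
      · exact h1
      · exact absurd h1 hm
    have := h l m
    rw [hym, mul_zero] at this
    rcases mul_eq_zero.1 this with h1 | h1
    · exact absurd h1 hm
    · simpa using h1
  · funext l
    simp only [Pi.smul_apply, smul_eq_mul]
    rw [div_mul_eq_mul_div, eq_div_iff hm]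
    have := h l m
    linear_combination this

lemma tens_par {x y x' y' : Fin (n + 1) → K} (hy : y ≠ 0) (hx : x ≠ 0)
    {c : K} (hc : c ≠ 0) (h : ∀ i j, x' i * y' j = c * (x i * y j)) : Par x x' ∧ Par y y' := by
  obtain ⟨j, hj⟩ : ∃ j, y j ≠ 0 := by
    by_contra hcon; push Not at hcon; exact hy (funext hcon)
  obtain ⟨i, hi⟩ : ∃ i, x i ≠ 0 := by
    by_contra hcon; push Not at hcon; exact hx (funext hcon)
  have hij : x' i * y' j ≠ 0 := by
    rw [h]; exact mul_ne_zero hc (mul_ne_zero hi hj)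
  have hi' : x' i ≠ 0 := left_ne_zero_of_mul hij
  have hj' : y' j ≠ 0 := right_ne_zero_of_mul hij
  refine ⟨⟨c * y j / y' j, ?_, ?_⟩, ⟨c * x i / x' i, ?_, ?_⟩⟩
  · exact div_ne_zero (mul_ne_zero hc hj) hj'
  · funext k
    simp only [Pi.smul_apply, smul_eq_mul]
    rw [div_mul_eq_mul_div, eq_div_iff hj', h]; ring
  · exact div_ne_zero (mul_ne_zero hc hi) hi'
  · funext k
    simp only [Pi.smul_apply, smul_eq_mul]
    rw [div_mul_eq_mul_div, eq_div_iff hi']
    have := h i k
    linear_combination this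

lemma eval_bind (x : Fin (n + 1) → K) (f : Fin (n + 1) → Poly K n) (g : Poly K n) :
    eval x (bind₁ f g) = eval (fun i => eval x (f i)) g := by
  have := congrArg (fun φ : Poly K n →+* K => φ g) (show (eval x).comp (bind₁ f : Poly K n →ₐ[K] Poly K n).toRingHom
      = eval (fun i => eval x (f i)) from ?_)
  · simpa using this
  · apply MvPolynomial.ringHom_ext
    · intro r; simp
    · intro i; simp

/-- not all `p j` vanish at a point of `X` -/
lemma NoZero.exists_ne {J : Ideal (Poly K n)} {ι : Type} {p : ι → Poly K n} (h : NoZero J p)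
    {x : Fin (n + 1) → K} (hx : x ≠ 0) (hJ : ∀ g ∈ J, eval x g = 0) : ∃ j, eval x (p j) ≠ 0 := by
  by_contra hcon
  push Not at hcon
  obtain ⟨l, hl⟩ : ∃ l, x l ≠ 0 := by
    by_contra hcon'; push Not at hcon'; exact hx (funext hcon')
  obtain ⟨M, hM⟩ := h l
  have : J ⊔ Ideal.span (Set.range p) ≤ RingHom.ker (eval x) := by
    refine sup_le (fun g hg => hJ g hg) ?_
    rw [Ideal.span_le]
    rintro _ ⟨j, rfl⟩
    exact hcon j
  have h2 := this hM
  rw [RingHom.mem_ker, map_pow, eval_X] at h2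
  exact hl (eq_zero_of_pow_eq_zero h2)

variable {I : Ideal (Poly K n)} {d : ℕ} {Φ : Fin (n + 1) → Fin (n + 1) → Poly K n}

lemma IsAuto.step (hΦ : IsAuto I d Φ) (hI : Homog I) {x : Fin (n + 1) → K} (hx : Pt I x) :
    ∃ y z : Fin (n + 1) → K, Pt I y ∧ Pt I z ∧ ∀ i j, eval x (Φ i j) = y i * z j := by
  obtain ⟨⟨a, b⟩, hab⟩ := hΦ.base.exists_ne hx.1 hx.2
  simp only at hab
  have hz' : Pt I (fun j => eval x (Φ a j)) := by
    refine ⟨fun h0 => hab (congrFun h0 b), fun g hg => ?_⟩
    have := hx.2 _ (hΦ.row g hg a)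
    rwa [eval_bind] at this
  refine ⟨fun i => eval x (Φ i b), (eval x (Φ a b))⁻¹ • (fun j => eval x (Φ a j)), ?_,
    hz'.smul hI (inv_ne_zero hab), ?_⟩
  · refine ⟨fun h0 => hab (congrFun h0 a), fun g hg => ?_⟩
    have := hx.2 _ (hΦ.col g hg b)
    rwa [eval_bind] at this
  · intro i j
    have := hx.2 _ (hΦ.rank i j a b)
    simp only [map_sub, map_mul] at this
    simp only [Pi.smul_apply, smul_eq_mul]
    field_simp
    linear_combination this

lemma IsAuto.inv (hΦ : IsAuto I d Φ) {x y z w v : Fin (n + 1) → K} (hx : Pt I x)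
    (hz : z ≠ 0) (hw : w ≠ 0) (hv : v ≠ 0) (h1 : ∀ i j, eval x (Φ i j) = y i * z j)
    (h2 : ∀ i j, eval y (Φ i j) = w i * v j) : Par x v := by
  obtain ⟨j, hj⟩ : ∃ j, z j ≠ 0 := by
    by_contra hcon; push Not at hcon; exact hz (funext hcon)
  obtain ⟨k, hk⟩ : ∃ k, w k ≠ 0 := by
    by_contra hcon; push Not at hcon; exact hw (funext hcon)
  refine par_of_minors hx.1 hv fun l m => ?_
  have h3 := hx.2 _ (hΦ.inv_col j k l m)
  simp only [map_sub, map_mul, eval_X, eval_bind, h1] at h3
  have h4 : (fun i => y i * z j) = z j • y := by funext i; simp [mul_comm]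
  rw [h4, eval_smul_hom (hΦ.hom k l), eval_smul_hom (hΦ.hom k m), h2, h2] at h3
  have h5 : z j ^ d * w k ≠ 0 := mul_ne_zero (pow_ne_zero _ hj) hk
  apply mul_left_cancel₀ h5
  linear_combination h3

lemma IsAuto.det (hΦ : IsAuto I d Φ) {x y z x' y' z' : Fin (n + 1) → K}
    (hy : y ≠ 0) (hz : z ≠ 0) (h1 : ∀ i j, eval x (Φ i j) = y i * z j)
    (h2 : ∀ i j, eval x' (Φ i j) = y' i * z' j) (h : Par x x') : Par y y' ∧ Par z z' := by
  obtain ⟨c, hc, rfl⟩ := h
  refine tens_par hz hy (pow_ne_zero d hc) fun i j => ?_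
  rw [← h2, eval_smul_hom (hΦ.hom i j), h1]

end Basic

end Pool.Agent.H55.MZ
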