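import Pool.Agent.H55.MZ.Bas

/-!
# Project MZ: orbits and heights
-/

set_option autoImplicit false

open MvPolynomial Filter Topology Height

namespace Pool.Agent.H55.MZ

section Orb

variable {K : Type} [Field K] {n : ℕ} {I : Ideal (Poly K n)} {d : ℕ}
  {Φ : Fin (n + 1) → Fin (n + 1) → Poly K n}

/-- the forward orbit of a point -/
structure Orbit (I : Ideal (Poly K n)) (Φ : Fin (n + 1) → Fin (n + 1) → Poly K n)
    (P z : ℕ → Fin (n + 1) → K) : Prop where
  pt : ∀ k, Pt I (P k)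
  zne : ∀ k, z k ≠ 0
  st : ∀ k i j, eval (P k) (Φ i j) = P (k + 1) i * z k j

lemma exists_orbit (hΦ : IsAuto I d Φ) (hI : Homog I) {x : Fin (n + 1) → K} (hx : Pt I x) :
    ∃ P z : ℕ → Fin (n + 1) → K, Orbit I Φ P z ∧ P 0 = x := by
  classical
  have hs : ∀ x : {x : Fin (n + 1) → K // Pt I x}, ∃ yz : {x : Fin (n + 1) → K // Pt I x} × (Fin (n + 1) → K),
      yz.2 ≠ 0 ∧ ∀ i j, eval x.1 (Φ i j) = yz.1.1 i * yz.2 j := by
    intro x
    obtain ⟨y, z, hy, hz, h⟩ := hΦ.step hI x.2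
    exact ⟨⟨⟨y, hy⟩, z⟩, hz.1, h⟩
  choose F hF using hs
  let Q : ℕ → {x : Fin (n + 1) → K // Pt I x} := fun k => Nat.rec ⟨x, hx⟩ (fun _ p => (F p).1) k
  refine ⟨fun k => (Q k).1, fun k => (F (Q k)).2, ⟨fun k => (Q k).2, fun k => (hF (Q k)).1, fun k i j => ?_⟩, rfl⟩
  exact (hF (Q k)).2 i j

lemma Orbit.par_z {P z : ℕ → Fin (n + 1) → K} (h : Orbit I Φ P z) (hΦ : IsAuto I d Φ) (k : ℕ) :
    Par (P k) (z (k + 1)) :=
  hΦ.inv (h.pt k) (h.zne k) (h.pt (k + 2)).1 (h.zne (k + 1)) (h.st k) (h.st (k + 1))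

lemma Orbit.fwd {P z : ℕ → Fin (n + 1) → K} (h : Orbit I Φ P z) (hΦ : IsAuto I d Φ) {a b : ℕ}
    (hab : Par (P a) (P b)) (k : ℕ) : Par (P (a + k)) (P (b + k)) := by
  induction k with
  | zero => exact hab
  | succ k ih =>
    exact (hΦ.det (h.pt (a + k + 1)).1 (h.zne (a + k)) (h.st (a + k)) (h.st (b + k)) ih).1

lemma Orbit.back {P z : ℕ → Fin (n + 1) → K} (h : Orbit I Φ P z) (hΦ : IsAuto I d Φ) {a b : ℕ} (k : ℕ)
    (hab : Par (P (a + k)) (P (b + k))) : Par (P a) (P b) := by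
  induction k with
  | zero => exact hab
  | succ k ih =>
    apply ih
    have h1 := (hΦ.det (h.pt (a + k + 2)).1 (h.zne (a + k + 1)) (h.st (a + k + 1)) (h.st (b + k + 1)) hab).2
    exact ((h.par_z hΦ (a + k)).trans h1).trans (h.par_z hΦ (b + k)).symm

variable [NumberField K]

lemma logHeight_par {x y : Fin (n + 1) → K} (h : Par x y) : logHeight x = logHeight y := by
  obtain ⟨c, hc, rfl⟩ := h
  rw [logHeight_smul_eq_logHeight _ hc]

/-- the height relation -/
lemma ht (hN : S_NULL) (hΦ : IsAuto I d Φ) (hI : Homog I) :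
    ∃ C : ℝ, ∀ x y z : Fin (n + 1) → K, Pt I x → y ≠ 0 → z ≠ 0 → (∀ i j, eval x (Φ i j) = y i * z j) →
      |logHeight y + logHeight z - d * logHeight x| ≤ C := by
  obtain ⟨M, q, hq, hrel⟩ := hN K n I hI (Fin (n + 1) × Fin (n + 1)) d (fun p => Φ p.1 p.2)
    (fun p => hΦ.hom p.1 p.2) hΦ.base
  obtain ⟨C1, hC1⟩ := logHeight_eval_le' (K := K) (p := fun p : Fin (n + 1) × Fin (n + 1) => Φ p.1 p.2)
    (N := d) (fun p => hΦ.hom p.1 p.2)
  obtain ⟨C2, hC2⟩ := logHeight_eval_ge' (K := K) (N := d) hq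
  refine ⟨max C1 (-C2), fun x y z hx hy hz h => ?_⟩
  have h1 : (fun p : Fin (n + 1) × Fin (n + 1) => eval x (Φ p.1 p.2)) = fun p => y p.1 * z p.2 := by
    funext p; exact h p.1 p.2
  have h2 := hC1 x
  have h3 := hC2 (fun p => Φ p.1 p.2) (x := x) (fun k => by
    have := hx.2 _ (hrel k)
    simp only [map_sub, map_sum, map_mul, map_pow, eval_X] at this
    linear_combination -this)
  rw [h1, logHeight_fun_mul_eq hy hz] at h2 h3
  rw [abs_le]
  constructor
  · have := le_max_right C1 (-C2)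
    linarith
  · have := le_max_left C1 (-C2)
    linarith

lemma northcott (B : ℝ) : {x : Fin (n + 1) → K | (∃ i, x i = 1) ∧ logHeight x ≤ B}.Finite := by
  refine Set.Finite.subset (Set.Finite.pi' (fun _ : Fin (n + 1) =>
    (NumberField.finite_setOfPred_logHeight₁_le K B))) ?_
  rintro x ⟨⟨i, hi⟩, hx⟩ j
  show logHeight₁ (x j) ≤ B
  rw [logHeight₁_eq_logHeight]
  have : ![x j, 1] = x ∘ ![j, i] := by
    funext k
    fin_cases k <;> simp [hi]
  rw [this]
  exact (logHeight_comp_le _ _).trans hx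

/-- every nonzero vector is proportional to one with a coordinate `1` -/
lemma exists_norm {x : Fin (n + 1) → K} (hx : x ≠ 0) : ∃ y, Par x y ∧ ∃ i, y i = 1 := by
  obtain ⟨i, hi⟩ : ∃ i, x i ≠ 0 := by
    by_contra hcon; push Not at hcon; exact hx (funext hcon)
  exact ⟨(x i)⁻¹ • x, ⟨(x i)⁻¹, inv_ne_zero hi, rfl⟩, i, by simp [hi]⟩

lemma Orbit.rel {P z : ℕ → Fin (n + 1) → K} (h : Orbit I Φ P z) (hΦ : IsAuto I d Φ) {C : ℝ}
    (hC : ∀ x y z : Fin (n + 1) → K, Pt I x → y ≠ 0 → z ≠ 0 → (∀ i j, eval x (Φ i j) = y i * z j) →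
      |logHeight y + logHeight z - d * logHeight x| ≤ C) (k : ℕ) :
    |logHeight (P (k + 2)) + logHeight (P k) - d * logHeight (P (k + 1))| ≤ C := by
  rw [logHeight_par (h.par_z hΦ k)]
  exact hC _ _ _ (h.pt (k + 1)) (h.pt (k + 2)).1 (h.zne (k + 1)) (h.st (k + 1))

lemma Orbit.unbdd {P z : ℕ → Fin (n + 1) → K} (h : Orbit I Φ P z) (hΦ : IsAuto I d Φ) {C : ℝ}
    (hC : ∀ x y z : Fin (n + 1) → K, Pt I x → y ≠ 0 → z ≠ 0 → (∀ i j, eval x (Φ i j) = y i * z j) →
      |logHeight y + logHeight z - d * logHeight x| ≤ C) (hd : 3 ≤ d)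
    (h0 : C / (d - 2) < logHeight (P 0)) : ¬ BddAbove (Set.range fun k => logHeight (P k)) := by
  rintro ⟨B, hB⟩
  have hB' : ∀ k, logHeight (P k) ≤ B := fun k => hB ⟨k, rfl⟩
  choose Q hQ hQ1 using fun k => exists_norm (h.pt k).1
  have hfin : (Set.range Q).Finite := by
    refine (northcott (K := K) (n := n) B).subset ?_
    rintro _ ⟨k, rfl⟩
    exact ⟨hQ1 k, (logHeight_par (hQ k)).symm.le.trans (hB' k)⟩
  obtain ⟨a, b, hab, hne⟩ : ∃ a b : ℕ, Q a = Q b ∧ a < b := by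
    have : ¬ Function.Injective Q := fun hinj => Set.infinite_range_of_injective hinj hfin
    simp only [Function.Injective, not_forall] at this
    obtain ⟨a, b, hab, hne⟩ := this
    rcases lt_or_gt_of_ne hne with h1 | h1
    · exact ⟨a, b, hab, h1⟩
    · exact ⟨b, a, hab.symm, h1⟩
  have hpar : Par (P a) (P b) := (hQ a).trans (hab ▸ (hQ b).symm)
  obtain ⟨q, rfl⟩ := Nat.exists_eq_add_of_lt hne
  have h0q : Par (P 0) (P (q + 1)) := by
    apply h.back hΦ a
    simpa [add_comm, add_left_comm, add_assoc] using hpar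
  have hper : ∀ k, logHeight (P (k + (q + 1))) = logHeight (P k) := by
    intro k
    have := h.fwd hΦ h0q k
    rw [zero_add, add_comm (q + 1)] at this
    exact (logHeight_par this).symm
  have hper' : ∀ k, logHeight (P k) = logHeight (P (k % (q + 1))) := by
    intro k
    have : ∀ m r, logHeight (P (r + (q + 1) * m)) = logHeight (P r) := by
      intro m
      induction m with
      | zero => intro r; simp
      | succ m ih => intro r; rw [mul_add, mul_one, ← add_assoc, hper, ih]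
    conv_lhs => rw [← Nat.mod_add_div k (q + 1)]
    exact this _ _
  obtain ⟨k0, hk0, hmax⟩ := Finset.exists_max_image (Finset.range (q + 1)) (fun k => logHeight (P k)) ⟨0, by simp⟩
  have hM : ∀ k, logHeight (P k) ≤ logHeight (P k0) := by
    intro k
    rw [hper' k]
    exact hmax _ (Finset.mem_range.2 (Nat.mod_lt _ (Nat.succ_pos q)))
  have h3 := h.rel hΦ hC (k0 + q)
  have h4 : k0 + q + 1 = k0 + (q + 1) := by ring
  rw [h4, hper k0, abs_le] at h3
  have h5 := hM (k0 + q)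
  have h6 := hM (k0 + q + 2)
  have hd' : (3 : ℝ) ≤ d := by exact_mod_cast hd
  have h7 : ((d : ℝ) - 2) * logHeight (P k0) ≤ C := by linarith [h3.1]
  have h8 : logHeight (P k0) ≤ C / (d - 2) := by
    rw [le_div_iff₀ (by linarith)]; linarith
  linarith [hM 0]

end Orb

end Pool.Agent.H55.MZ
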