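import Mathlib

/-!
# Project MZ (helper55): Mazur's question for surfaces with an automorphism of positive entropy

`X ⊂ ℙⁿ` is a surface over a number field `K` with an automorphism `f` such that
`f^* O(1) ⊗ (f⁻¹)^* O(1) = O(d)`, `d ≥ 3`.  Goal: at all but finitely many places of `K` every local Zariski closure
of `X(K)` is empty, or `X`, or a point of a fixed finite set.

This file contains the definitions and the statements (`S_…`) of the parts, with complete proofs in the comments.
Prove `theorem Pool.Agent.H55.MZ.<NAME>.t : Pool.Agent.H55.MZ.S_<NAME>` in `Pool/Agent/H55/MZ/<NAME>.lean`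
(import this file only, or other proved parts).
-/

set_option autoImplicit false

open MvPolynomial Filter Topology Height

namespace Pool.Agent.H55.MZ

/-- The polynomials in the homogeneous coordinates of projective `n`-space. -/
abbrev Poly (K : Type) [Field K] (n : ℕ) : Type := MvPolynomial (Fin (n + 1)) K

/-- The polynomials `p j` have no common zero on the projective variety with the ideal `J`: a power of each
coordinate lies in the ideal generated by `J` and the `p j`. -/
def NoZero {K : Type} [Field K] {n : ℕ} {ι : Type} (J : Ideal (Poly K n)) (p : ι → Poly K n) : Prop :=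
  ∀ l, ∃ M : ℕ, (X l : Poly K n) ^ M ∈ J ⊔ Ideal.span (Set.range p)

/-- `J` is a homogeneous ideal: it contains the homogeneous components of its elements. -/
def Homog {K : Type} [Field K] {n : ℕ} (J : Ideal (Poly K n)) : Prop :=
  ∀ g ∈ J, ∀ s : ℕ, homogeneousComponent s g ∈ J

/-- The `K`-rational points of the variety with the ideal `J` (their vectors of homogeneous coordinates). -/
def Pt {K : Type} [Field K] {n : ℕ} (J : Ideal (Poly K n)) (x : Fin (n + 1) → K) : Prop :=
  x ≠ 0 ∧ ∀ g ∈ J, eval x g = 0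

/-- `Φ i j` are forms of degree `d` without common zero on the variety `X` with the ideal `I`, the matrix `Φ` has rank
one on `X`, and the maps given by its columns and by its rows are inverse automorphisms `f` and `f⁻¹` of `X`: for
`x` in `X` we have `Φ(x) = f(x) ⊗ f⁻¹(x)`. -/
structure IsAuto {K : Type} [Field K] {n : ℕ} (I : Ideal (Poly K n)) (d : ℕ)
    (Φ : Fin (n + 1) → Fin (n + 1) → Poly K n) : Prop where
  hom : ∀ i j, (Φ i j).IsHomogeneous d
  base : NoZero I (fun p : Fin (n + 1) × Fin (n + 1) => Φ p.1 p.2)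
  rank : ∀ i j k l, Φ i j * Φ k l - Φ i l * Φ k j ∈ I
  col : ∀ g ∈ I, ∀ j, bind₁ (fun i => Φ i j) g ∈ I
  row : ∀ g ∈ I, ∀ i, bind₁ (fun j => Φ i j) g ∈ I
  inv_col : ∀ j k l m, X m * bind₁ (fun i => Φ i j) (Φ k l) - X l * bind₁ (fun i => Φ i j) (Φ k m) ∈ I
  inv_row : ∀ i k l m, X m * bind₁ (fun j => Φ i j) (Φ l k) - X l * bind₁ (fun j => Φ i j) (Φ m k) ∈ I

/-! ## The parts -/

/-- GROW.  A nonnegative sequence with `h (k+2) + h k = d h (k+1) + O(1)`, `d ≥ 3`, which is not bounded, tends to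
infinity, with `h (k+1) / h k → λ = (d + √(d² - 4)) / 2`.

Proof.  Let `μ = 1 / λ`, so `λ + μ = d`, `λ > 1 > μ > 0`.  Put `a k = h (k+1) - μ h k`.  Then
`|a (k+1) - λ a k| = |h (k+2) - d h (k+1) + h k| ≤ C`.  So `b k = a k / λ ^ k` is Cauchy, with limit `A` and
`|a k - A λ ^ k| ≤ C / (λ - 1)`.  If `A ≤ 0` then `a k ≤ C / (λ - 1)` for all `k`, so `h (k+1) ≤ μ h k + C / (λ - 1)`
and `h` is bounded, a contradiction.  So `A > 0` and `a k / λ ^ k → A > 0`.  Put `g k = h k / λ ^ k`.  Then
`g (k+1) = (μ / λ) g k + a k / λ ^ (k+1)`, a contraction with convergent inhomogeneity, so `g k → A' > 0`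
(`A' (1 - μ / λ) = A / λ`).  So `h k → ∞` and `h (k+1) / h k = λ g (k+1) / g k → λ`. -/
def S_GROW : Prop := ∀ (d C : ℝ) (_ : 3 ≤ d) (h : ℕ → ℝ) (_ : ∀ k, 0 ≤ h k)
  (_ : ∀ k, |h (k + 2) + h k - d * h (k + 1)| ≤ C) (_ : ¬ BddAbove (Set.range h)),
  Tendsto (fun k => h (k + 1) / h k) atTop (𝓝 ((d + Real.sqrt (d ^ 2 - 4)) / 2)) ∧ Tendsto h atTop atTop

/-- IRR.  No power `λ ^ N`, `N ≥ 1`, of `λ = (d + √(d² - 4)) / 2`, `d ≥ 3` an integer, is rational.

Proof.  `λ` and `1 / λ = (d - √(d² - 4)) / 2` are algebraic integers (roots of `t² - d t + 1`).  So are their `N`-th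
powers; if `λ ^ N = q` is rational then `q` and `1 / q` are integers, so `q = ± 1`, but `λ ^ N > 1`. -/
def S_IRR : Prop := ∀ (d N : ℕ) (_ : 3 ≤ d) (_ : 1 ≤ N) (q : ℚ),
  (((d : ℝ) + Real.sqrt ((d : ℝ) ^ 2 - 4)) / 2) ^ N ≠ (q : ℝ)

/-- RATIO.  If infinitely many points `(u k, v k)` of a plane curve over a number field satisfy `h(u k) → ∞` and
`h(v k) / h(u k) → r` then `r` is rational.

Proof.  By unique factorization in `K[X][Y]` we may pass to a subsequence such that `f (u k, v k) = 0` for all `k` with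
`f` IRREDUCIBLE (an irreducible factor of `F`; `F ≠ 0` has finitely many).  Let `m = deg_u f`, `n = deg_v f`.  If
`n = 0` then `u k` takes finitely many values, a contradiction to `h(u k) → ∞`.  If `m = 0` then `v k` takes finitely
many values and `r = 0`.  If `r = 0` we are done.  So let `m, n ≥ 1`, `r > 0` (`r ≥ 0` is clear), so also `h(v k) → ∞`.
CLAIM: `r ≤ m / n`.  By symmetry (`u ↔ v`, `1 / r`) also `1 / r ≤ n / m`, so `r = m / n`.
Proof of the claim.  Let `b ≥ 1`, `J = n`, and `I` the least integer with `n I > m b` (and `I ≥ m`).  Consider polynomials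
`S`, `G` of degree `< I` in `u` and `< J` in `v`, and `H` of degree `< I - m` in `u` and `< J + b - n = b` in `v`, with
`v ^ b S - G = f H`.  There are `2 I J + (I - m) b` unknown coefficients and `I (J + b)` linear equations (the
coefficients of a polynomial of degree `< I` in `u` and `< J + b` in `v`), so the solutions form a vector space of
dimension at least `2 I n + (I - m) b - I (n + b) = I n - m b > 0`.  If `f ∣ S` then `S = 0` as `deg_v S < n`, and
similarly for `G`; if `S = 0` then `f ∣ G`, so `G = 0` and `H = 0`.  So there is a solution with `S ≠ 0`, `f ∤ S`.  As `f`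
is irreducible, `f` and `S` have only finitely many common zeros (both are coprime in `K(u)[v]` and in `K(v)[u]`), and
the pairs `(u k, v k)` are pairwise different for large `k` in a subsequence, so `S (u k, v k) ≠ 0` for all large `k` (in
the subsequence).  Then `v ^ b = G (u, v) / S (u, v)` for `(u, v) = (u k, v k)`, and so
`b h(v) = h(v ^ b) = h (G (u, v) / S (u, v)) ≤ h(u ^ i v ^ j : i < I, j < J) + C ≤ (I - 1) h(u) + (n - 1) h(v) + C` with `C`
independent of `k` (a linear map applied to the vector of the monomials `u ^ i v ^ j`, which is the product of the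
vectors `(u ^ i)_i` and `(v ^ j)_j`; Mathlib: `logHeight_linearMap_apply_le`, `logHeight_fun_mul_eq`,
`logHeight_eval_le`).  So `(b - n + 1) r ≤ I - 1`, where `I ≤ m b / n + 1 + m`; divide by `b` and let `b → ∞`. -/
def S_RATIO : Prop := ∀ (K : Type) [Field K] [NumberField K] (F : Polynomial (Polynomial K)) (_ : F ≠ 0)
  (u v : ℕ → K) (_ : ∀ k, F.evalEval (u k) (v k) = 0)
  (_ : Tendsto (fun k => logHeight₁ (u k)) atTop atTop) (r : ℝ)
  (_ : Tendsto (fun k => logHeight₁ (v k) / logHeight₁ (u k)) atTop (𝓝 r)), ∃ q : ℚ, r = q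

/-- NULL.  Homogeneous form of the condition `NoZero`: if the forms `p j` of degree `N ≥ 1` (finitely many) have no
common zero on the variety with the homogeneous ideal `J`, then there are `M` and forms `q (l, j)` of degree `M` with
`X_l ^ (M + N) - ∑ j, q (l, j) p j ∈ J` for all `l`.

Proof.  Take a common exponent `M + N` (multiply by powers of `X l`; one can increase the exponents, so choose
`M + N ≥` all of them), write `X_l ^ (M + N) = g + ∑ j, a_j p_j` with `g ∈ J`, and take the homogeneous components of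
degree `M + N`: `homogeneousComponent (M + N) (a_j p_j) = homogeneousComponent M a_j * p_j`. -/
def S_NULL : Prop := ∀ (K : Type) [Field K] (n : ℕ) (J : Ideal (Poly K n)) (_ : Homog J) (ι : Type) [Fintype ι] (N : ℕ)
  (p : ι → Poly K n) (_ : ∀ j, (p j).IsHomogeneous N) (_ : NoZero J p),
  ∃ (M : ℕ) (q : Fin (n + 1) × ι → Poly K n), (∀ a, (q a).IsHomogeneous M) ∧
    ∀ l, (X l : Poly K n) ^ (M + N) - ∑ j, q (l, j) * p j ∈ J

/-- NORM.  Let `I` be a homogeneous prime ideal and `ℓ 0, ℓ 1, ℓ 2` linear forms without common zero on the variety of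
`I` (so its dimension is at most two), and `g ∉ I` a form.  Then there are linear forms `m 0, m 1` without common zero
on the variety of `I + (g)`.  (`K` infinite.)

Proof.  Let `B = K[x] / I`, a domain, and `A₀` the subalgebra generated by the images of `ℓ i`.
(1) `B` is integral over `A₀`: let `D = ∑ M_l`; every monomial of degree `≥ D` is divisible by some `X_l ^ (M_l)`, which
lies in `I + (ℓ)`; with homogeneous components every form of degree `s ≥ D` is, modulo `I`, a combination of the `ℓ i`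
with coefficients forms of degree `s - 1`.  By induction `B` is generated as an `A₀`-module by the monomials of degree
`< D`, so it is finite and integral over `A₀`.
(2) The image of `g` is not `0` and is integral over `A₀`; a monic relation of least degree
`g ^ r + c₁ g ^ (r-1) + ⋯ + c_r = 0` has `c_r ≠ 0` in `B` (domain).  So there is `A ∈ K[t₀, t₁, t₂]` with
`A(ℓ) ∉ I` (in particular `A ≠ 0`) and `A(ℓ) ∈ I + (g)`.  The homogeneous components `A_s(ℓ)` are in `I + (g)` too (this
ideal is homogeneous).  Choose `s` with `A_s ≠ 0`.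
(3) As `K` is infinite there is `a ∈ K³` with `A_s(a) ≠ 0`; if `s = 0` then `1 ∈ I + (g)` and everything is trivial
(`m = 0`; `0` is homogeneous of degree one), so let `s ≥ 1`, `a ≠ 0`.  Let `m' 0, m' 1 ∈ K[t]` be linear forms spanning the linear forms which vanish at
`a` and `τ` a linear form with `τ(a) = 1`.  Then `t_i = a_i τ + (m'-combination)`, so `A_s(t) ≡ A_s(a) τ ^ s` modulo `(m')`.
Put `m i = m' i (ℓ)`.  So `τ(ℓ) ^ s ∈ I + (g) + (m)` and `ℓ_i ^ s ∈ I + (g) + (m)` for all `i`.
(4) `X_l ^ M ∈ I + (ℓ)`, so `X_l ^ (3 s M) ∈ I + (ℓ_i ^ s) ⊆ I + (g) + (m)`. -/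
def S_NORM : Prop := ∀ (K : Type) [Field K] [Infinite K] (n : ℕ) (I : Ideal (Poly K n)) (_ : I.IsPrime) (_ : Homog I)
  (ℓ : Fin 3 → Poly K n) (_ : ∀ i, (ℓ i).IsHomogeneous 1) (_ : NoZero I ℓ)
  (g : Poly K n) (s : ℕ) (_ : g.IsHomogeneous s) (_ : g ∉ I),
  ∃ m : Fin 2 → Poly K n, (∀ i, (m i).IsHomogeneous 1) ∧ NoZero (I ⊔ Ideal.span {g}) m

/-- ALG.  Let `J` be a homogeneous ideal and `m 0, m 1` linear forms without common zero on the variety of `J` (so its
dimension is at most one), and `Ψ 0, Ψ 1` forms of one degree `δ`.  Then the functions `m 1 / m 0` and `Ψ 1 / Ψ 0` are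
algebraically dependent on the set of the `K`-points of the variety.

Proof.  Let `P_s` be the space of the forms of degree `s`.  Let `D = ∑ M_l`; each monomial of degree `s > D` is divisible by
some `X_l ^ (M_l) ∈ J + (m)`; with homogeneous components `P_s ⊆ J + m₀ P_(s-1) + m₁ P_(s-1)` for `s > D`.  By induction
`P_s ⊆ J + ∑_{i ≤ s - D} m₀ ^ i m₁ ^ (s-D-i) P_D`, so `P_s / (P_s ∩ J)` has dimension at most `(s - D + 1) dim P_D`.  For `M`
large, `(M+1)²` is larger than this for `s = M + δ M`, so the `(M+1)²` forms `m₀^(M-i) m₁^i Ψ₀^(M-j) Ψ₁^j` of degree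
`s` are linearly dependent modulo `J`: `∑ c_ij m₀^(M-i) m₁^i Ψ₀^(M-j) Ψ₁^j ∈ J`, not all `c_ij = 0`.  Take
`F = ∑ c_ij X^i Y^j` and divide by `m₀(x)^M Ψ₀(x)^M`. -/
def S_ALG : Prop := ∀ (K : Type) [Field K] (n : ℕ) (J : Ideal (Poly K n)) (_ : Homog J)
  (m : Fin 2 → Poly K n) (_ : ∀ i, (m i).IsHomogeneous 1) (_ : NoZero J m)
  (δ : ℕ) (Ψ : Fin 2 → Poly K n) (_ : ∀ i, (Ψ i).IsHomogeneous δ),
  ∃ F : Polynomial (Polynomial K), F ≠ 0 ∧ ∀ x : Fin (n + 1) → K, (∀ g ∈ J, eval x g = 0) →
    eval x (m 0) ≠ 0 → eval x (Ψ 0) ≠ 0 →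
    F.evalEval (eval x (m 1) / eval x (m 0)) (eval x (Ψ 1) / eval x (Ψ 0)) = 0

/-- The conditions at a place: the coefficients of the forms `Φ i j` are integral and `Φ` has no zero modulo the
maximal ideal at the `K`-points of `X`. -/
def GoodAt {K : Type} [Field K] {n : ℕ} (I : Ideal (Poly K n)) (Φ : Fin (n + 1) → Fin (n + 1) → Poly K n)
    {L : Type} [NormedField L] (σ : K →+* L) : Prop :=
  (∀ i j e, ‖σ ((Φ i j).coeff e)‖ ≤ 1) ∧
  ∀ x : Fin (n + 1) → K, Pt I x → (∀ i, ‖σ (x i)‖ ≤ 1) → (∃ i, ‖σ (x i)‖ = 1) → ∃ i j, ‖σ (eval x (Φ i j))‖ = 1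

/-- GOOD.  The conditions hold at all places at which a certain natural number `N ≠ 0` is a unit.

Proof.  By S_NULL (which may be used as a hypothesis or imported) there are forms `q` with
`X_l ^ (M + d) - ∑ q (l, (i, j)) Φ i j ∈ I`.  Let `N ≠ 0` be such that `N a` is an algebraic integer for all coefficients `a`
of the `Φ i j` and of the `q`.  Let `‖(N : L)‖ = 1`.  An algebraic integer has norm `≤ 1` in an ultrametric field, so all these
coefficients have norm `≤ 1`.  If `x ∈ X(K)` has norm one, `‖x_l‖ = 1`, then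
`1 = ‖x_l ^ (M + d)‖ ≤ max ‖q (l,(i,j)) (x)‖ ‖Φ i j (x)‖ ≤ max ‖Φ i j (x)‖ ≤ 1`. -/
def S_GOOD : Prop := ∀ (K : Type) [Field K] [NumberField K] (n : ℕ) (I : Ideal (Poly K n)) (_ : Homog I) (d : ℕ)
  (Φ : Fin (n + 1) → Fin (n + 1) → Poly K n) (_ : IsAuto I d Φ),
  ∃ N : ℕ, N ≠ 0 ∧ ∀ (L : Type) [NontriviallyNormedField L] [IsUltrametricDist L] (σ : K →+* L),
    ‖(N : L)‖ = 1 → GoodAt I Φ σ

/-- RED.  Recurrence at a place of good reduction.  `P k` is the orbit of a `K`-point under `f`: `Φ(P k) = P (k+1) ⊗ z k`.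
For each `r > 0` there is `N ≥ 1` such that all the points `P (N m)` have a representative at a distance less
than `r` from `P 0`.

Proof.  We may scale `P 0` (replace `r`), `‖·‖` the maximum norm, so that `‖P 0‖ = 1` (divide by a coordinate of maximal
norm), and let `r < 1`.  For `K`-points
`x, x'` of `X` let `x ≡ x'` if there are `c, c' ∈ K^*` with `‖c x‖ = ‖c' x'‖ = 1` and `‖c x - c' x'‖ < r`.  This is an
equivalence relation (if `‖y‖ = 1` and `‖c y‖ = 1` then `‖c‖ = 1`), and it has finitely many classes, as the unit ball of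
`L ^ (n+1)` is compact (`ProperSpace L`).  If `x ≡ x'`, `Φ(x) = y ⊗ z`, `Φ(x') = y' ⊗ z'`, `x, x'` points of `X`,
then `y ≡ y'` and `z ≡ z'`: take `‖x‖ = ‖x'‖ = 1`, `‖x - x'‖ < r`.  As the coefficients of `Φ` are integral,
`‖Φ(x) - Φ(x')‖ < r`, and `‖Φ(x)‖ = ‖Φ(x')‖ = 1`.  Scale `y`, `y'` to norm one; then `‖z‖ = ‖z'‖ = 1`.  Choose `j` with
`‖z_j‖ = 1`; then `‖z_j y - z'_j y'‖ < r`, and `‖z'_j y'‖ = 1` by the ultrametric inequality.  So `y ≡ y'`; similarly
`z ≡ z'`.  By the pigeonhole principle there are `i < k` with `P i ≡ P k`.  By `IsAuto.inv_col` the second factor of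
`Φ(P (k+1))` is proportional to `P k` for all `k` (all `P k` are points of `X` by `IsAuto.col`).  So
`P (i-1) ≡ P (k-1)`, …, `P 0 ≡ P N` with `N = k - i`, and then `P N ≡ P (2 N)`, … -/
def S_RED : Prop := ∀ (K : Type) [Field K] (n : ℕ) (I : Ideal (Poly K n)) (d : ℕ)
  (Φ : Fin (n + 1) → Fin (n + 1) → Poly K n) (_ : IsAuto I d Φ)
  (L : Type) [NontriviallyNormedField L] [IsUltrametricDist L] [ProperSpace L] (σ : K →+* L) (_ : GoodAt I Φ σ)
  (P z : ℕ → Fin (n + 1) → K) (_ : ∀ k, Pt I (P k)) (_ : ∀ k i j, eval (P k) (Φ i j) = P (k + 1) i * z k j)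
  (r : ℝ) (_ : 0 < r),
  ∃ N : ℕ, 1 ≤ N ∧ ∀ m : ℕ, ∃ c : K, c ≠ 0 ∧ ∀ i, ‖σ (c * P (N * m) i) - σ (P 0 i)‖ < r

end Pool.Agent.H55.MZ
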